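import Mathlib

set_option autoImplicit false

/-!
# Kunen's independent linked matrix
-/

open Set Filter Cardinal

namespace Pool.Agent.Q304.KU

/-- The underlying countable set. -/
abbrev SS := Σ k : ℕ, Finset (Finset (Fin k) × Finset (Fin k))

open Classical in
/-- trace of a set on `k`. -/
noncomputable def tr (Y : Set ℕ) (k : ℕ) : Finset (Fin k) := Finset.univ.filter (fun i => (i : ℕ) ∈ Y)

open Classical in
/-- fibre of the relation. -/
noncomputable def fib (s : SS) (D : Finset (Fin s.1)) : Finset (Finset (Fin s.1)) :=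
  (s.2.filter (fun p => p.1 = D)).image Prod.snd

/-- The matrix on `SS`. -/
def M0 (j i : Set ℕ) (n : ℕ) : Set SS := {s | tr i s.1 ∈ fib s (tr j s.1) ∧ (fib s (tr j s.1)).card ≤ n}

lemma M0_mono (j i : Set ℕ) {n m : ℕ} (h : n ≤ m) : M0 j i n ⊆ M0 j i m :=
  fun _ hs => ⟨hs.1, hs.2.trans h⟩

lemma tr_sep (Y Z : Set ℕ) (h : Y ≠ Z) : ∃ k0, ∀ k, k0 ≤ k → tr Y k ≠ tr Z k := by
  classical
  have : ∃ n, ¬ (n ∈ Y ↔ n ∈ Z) := by
    by_contra hcon
    push Not at hcon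
    exact h (Set.ext hcon)
  obtain ⟨n, hn⟩ := this
  refine ⟨n + 1, fun k hk heq => hn ?_⟩
  have h1 : (⟨n, hk⟩ : Fin k) ∈ tr Y k ↔ (⟨n, hk⟩ : Fin k) ∈ tr Z k := by rw [heq]
  simpa [tr] using h1

lemma tr_inj (σ : Finset (Set ℕ)) : ∃ k0, ∀ k, k0 ≤ k → Set.InjOn (fun Y => tr Y k) (σ : Set (Set ℕ)) := by
  classical
  choose! f hf using tr_sep
  refine ⟨(σ ×ˢ σ).sup (fun p => f p.1 p.2), fun k hk Y hY Z hZ heq => ?_⟩
  by_contra hne
  refine hf Y Z hne k (le_trans ?_ hk) heq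
  exact Finset.le_sup (f := fun p : Set ℕ × Set ℕ => f p.1 p.2) (b := (Y, Z))
    (Finset.mem_product.2 ⟨hY, hZ⟩)

lemma fin_lt (k0 : ℕ) : {s : SS | s.1 < k0}.Finite := by
  have : {s : SS | s.1 < k0} = ⋃ k ∈ Set.Iio k0, Set.range (Sigma.mk k) := by
    ext ⟨k, s⟩
    simp only [mem_ofPred_eq, mem_iUnion, mem_Iio, mem_range]
    constructor
    · intro h
      exact ⟨k, h, s, rfl⟩
    · rintro ⟨k', h, s', hs'⟩
      have : k' = k := congrArg Sigma.fst hs'
      exact this ▸ h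
  rw [this]
  exact (Set.finite_Iio k0).biUnion fun k _ => Set.finite_range _

lemma M0_fin (j : Set ℕ) (σ : Finset (Set ℕ)) (n : ℕ) (hn : n < σ.card) :
    {s : SS | ∀ i ∈ σ, s ∈ M0 j i n}.Finite := by
  classical
  obtain ⟨k0, hk0⟩ := tr_inj σ
  refine (fin_lt k0).subset fun s hs => ?_
  by_contra hcon
  have hk : k0 ≤ s.1 := not_lt.1 hcon
  have h1 : σ.image (fun Y => tr Y s.1) ⊆ fib s (tr j s.1) := by
    intro D hD
    rw [Finset.mem_image] at hD
    obtain ⟨i, hi, rfl⟩ := hD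
    exact (hs i hi).1
  have h2 : (σ.image (fun Y => tr Y s.1)).card = σ.card := Finset.card_image_of_injOn (hk0 _ hk)
  have hne : σ.Nonempty := Finset.card_pos.1 (by omega)
  obtain ⟨i, hi⟩ := hne
  have h3 := (hs i hi).2
  have h4 := Finset.card_le_card h1
  omega

lemma M0_pos (T : Finset (Set ℕ)) (σ : Set ℕ → Finset (Set ℕ)) :
    {s : SS | ∀ j ∈ T, ∀ i ∈ σ j, s ∈ M0 j i (σ j).card}.Infinite := by
  classical
  obtain ⟨k0, hk0⟩ := tr_inj T
  have hex : ∀ k, k0 ≤ k → ∃ s : SS, s.1 = k ∧ ∀ j ∈ T, ∀ i ∈ σ j, s ∈ M0 j i (σ j).card := by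
    intro k hk
    let R : Finset (Finset (Fin k) × Finset (Fin k)) :=
      T.biUnion (fun j => (σ j).image (fun i => (tr j k, tr i k)))
    refine ⟨⟨k, R⟩, rfl, fun j hj i hi => ?_⟩
    have hfib : fib ⟨k, R⟩ (tr j k) = (σ j).image (fun i => tr i k) := by
      ext D
      simp only [fib, R, Finset.mem_image, Finset.mem_filter, Finset.mem_biUnion]
      constructor
      · rintro ⟨⟨a, b⟩, ⟨⟨j', hj', i', hi', hab⟩, ha⟩, rfl⟩
        simp only [Prod.mk.injEq] at hab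
        obtain ⟨rfl, rfl⟩ := hab
        have : j' = j := hk0 k hk hj' hj ha
        subst this
        exact ⟨i', hi', rfl⟩
      · rintro ⟨i', hi', rfl⟩
        exact ⟨(tr j k, tr i' k), ⟨⟨j, hj, i', hi', rfl⟩, rfl⟩, rfl⟩
    refine ⟨?_, ?_⟩
    · change tr i k ∈ fib ⟨k, R⟩ (tr j k)
      rw [hfib]
      exact Finset.mem_image_of_mem _ hi
    · change (fib ⟨k, R⟩ (tr j k)).card ≤ _
      rw [hfib]
      exact Finset.card_image_le
  intro hfin
  have h1 : (Sigma.fst '' {s : SS | ∀ j ∈ T, ∀ i ∈ σ j, s ∈ M0 j i (σ j).card}).Finite :=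
    hfin.image _
  apply (Set.infinite_of_not_bddAbove (s := Set.Ici k0) (by
    rintro ⟨b, hb⟩
    have := hb (by simp : max k0 (b+1) ∈ Set.Ici k0)
    have h3 := le_max_right k0 (b+1)
    omega)).mono _ h1
  intro k hk
  obtain ⟨s, hs, hs2⟩ := hex k hk
  exact ⟨s, hs2, hs⟩

/-- Existence of an independent linked matrix on the naturals. -/
theorem exists_matrix : ∃ A : Set ℕ → Set ℕ → ℕ → Set ℕ,
    (∀ j i n m, n ≤ m → A j i n ⊆ A j i m) ∧
    (∀ (j : Set ℕ) (σ : Finset (Set ℕ)) (n : ℕ), n < σ.card → {x | ∀ i ∈ σ, x ∈ A j i n}.Finite) ∧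
    (∀ (T : Finset (Set ℕ)) (σ : Set ℕ → Finset (Set ℕ)),
      {x | ∀ j ∈ T, ∀ i ∈ σ j, x ∈ A j i (σ j).card}.Infinite) := by
  have hinf : Infinite SS := by
    refine Infinite.of_injective (fun k : ℕ => (⟨k, ∅⟩ : SS)) ?_
    intro a b h
    exact congrArg Sigma.fst h
  obtain ⟨e⟩ : Nonempty (SS ≃ ℕ) := nonempty_equiv_of_countable
  refine ⟨fun j i n => e.symm ⁻¹' (M0 j i n), ?_, ?_, ?_⟩
  · intro j i n m h x hx
    exact M0_mono j i h hx
  · intro j σ n hn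
    have := (M0_fin j σ n hn).preimage (f := e.symm) e.symm.injective.injOn
    exact this
  · intro T σ
    have h := M0_pos T σ
    intro hfin
    apply h
    have h2 := hfin.image e.symm
    refine h2.subset fun s hs => ⟨e s, ?_, by simp⟩
    simpa using hs

end Pool.Agent.Q304.KU
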