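import Mathlib
import Pool.Agent.Q304.KU.Mat

set_option autoImplicit false

/-!
# One step of Kunen's construction
-/

open Set Filter

namespace Pool.Agent.Q304.KU

/-- The properties of the matrix. -/
structure IsMat (A : Set ℕ → Set ℕ → ℕ → Set ℕ) : Prop where
  mono : ∀ j i n m, n ≤ m → A j i n ⊆ A j i m
  fin : ∀ (j : Set ℕ) (σ : Finset (Set ℕ)) (n : ℕ), n < σ.card → {x | ∀ i ∈ σ, x ∈ A j i n}.Finite

/-- cells -/
def cell (A : Set ℕ → Set ℕ → ℕ → Set ℕ) (T : Finset (Set ℕ)) (σ : Set ℕ → Finset (Set ℕ)) : Set ℕ :=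
  {x | ∀ j ∈ T, ∀ i ∈ σ j, x ∈ A j i (σ j).card}

/-- independence over a filter, rows in `J` -/
def Good (A : Set ℕ → Set ℕ → ℕ → Set ℕ) (F : Filter ℕ) (J : Set (Set ℕ)) : Prop :=
  ∀ T : Finset (Set ℕ), (∀ j ∈ T, j ∈ J) → ∀ σ, ∃ᶠ x in F, x ∈ cell A T σ

variable {A : Set ℕ → Set ℕ → ℕ → Set ℕ} {F G : Filter ℕ} {J J' : Set (Set ℕ)}

lemma Good.mono (h : Good A F J) (hJ : J' ⊆ J) : Good A F J' :=
  fun T hT σ => h T (fun j hj => hJ (hT j hj)) σ

lemma Good.neBot (h : Good A F J) : F.NeBot := by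
  have := h ∅ (by simp) (fun _ => ∅)
  rw [neBot_iff]
  intro hbot
  rw [hbot] at this
  simp at this

open Classical in
lemma Good.cellAdd (h : Good A F J) (T₀ : Finset (Set ℕ)) (hT₀ : ∀ j ∈ T₀, j ∈ J)
    (σ₀ : Set ℕ → Finset (Set ℕ)) : Good A (F ⊓ 𝓟 (cell A T₀ σ₀)) (J \ ↑T₀) := by
  intro T hT σ
  rw [frequently_inf_principal]
  have h1 := h (T ∪ T₀) (by
    intro j hj
    rcases Finset.mem_union.1 hj with hj | hj
    · exact (hT j hj).1
    · exact hT₀ j hj) (fun j => if j ∈ T₀ then σ₀ j else σ j)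
  refine h1.mono fun x hx => ⟨?_, ?_⟩
  · intro j hj i hi
    have := hx j (Finset.mem_union_right _ hj) i (by simpa [hj] using hi)
    simpa [hj] using this
  · intro j hj i hi
    have hj0 : j ∉ T₀ := fun hc => (hT j hj).2 (by simpa using hc)
    have := hx j (Finset.mem_union_left _ hj) i (by simpa [hj0] using hi)
    simpa [hj0] using this

lemma not_good (h : ¬ Good A F J) : ∃ (T : Finset (Set ℕ)) (σ : Set ℕ → Finset (Set ℕ)),
    (∀ j ∈ T, j ∈ J) ∧ ∀ᶠ x in F, x ∉ cell A T σ := by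
  unfold Good at h
  push Not at h
  obtain ⟨T, hT, σ, h⟩ := h
  exact ⟨T, σ, hT, h⟩

/-- deciding one set. -/
lemma decide_set (h : Good A F J) (E : Set ℕ) : ∃ F' ≤ F, ∃ R : Finset (Set ℕ),
    Good A F' (J \ ↑R) ∧ (E ∈ F' ∨ Eᶜ ∈ F') := by
  by_cases hE : Good A (F ⊓ 𝓟 E) J
  · exact ⟨F ⊓ 𝓟 E, inf_le_left, ∅, by simpa using hE, Or.inl (mem_inf_of_right (mem_principal_self _))⟩
  · obtain ⟨T, σ, hT, hev⟩ := not_good hE
    refine ⟨F ⊓ 𝓟 (cell A T σ), inf_le_left, T, h.cellAdd T hT σ, Or.inr ?_⟩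
    rw [mem_inf_principal]
    rw [eventually_inf_principal] at hev
    filter_upwards [hev] with x hx hxc hxE
    exact hx hxE hxc

/-- requirement for a sequence of sets -/
def ReqC (C : ℕ → Set ℕ) (F : Filter ℕ) : Prop :=
  Antitone C → C 0 = univ → (∃ n, (C n)ᶜ ∈ F) ∨ ∃ D : Set ℕ → Set ℕ, (∀ i, D i ∈ F) ∧
    ∀ σ : Finset (Set ℕ), ({x | ∀ i ∈ σ, x ∈ D i} \ C σ.card).Finite

lemma ReqC.mono {C : ℕ → Set ℕ} (h : ReqC C F) (hG : G ≤ F) : ReqC C G := by
  intro h1 h2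
  rcases h h1 h2 with ⟨n, hn⟩ | ⟨D, hD, hD2⟩
  · exact Or.inl ⟨n, hG hn⟩
  · exact Or.inr ⟨D, fun i => hG (hD i), hD2⟩

open Classical in
lemma stepC (hA : IsMat A) (h : Good A F J) (hJ : J.Nonempty) (C : ℕ → Set ℕ) :
    ∃ F' ≤ F, ∃ R : Finset (Set ℕ), Good A F' (J \ ↑R) ∧ ReqC C F' := by
  by_cases hanti : Antitone C
  swap
  · exact ⟨F, le_rfl, ∅, by simpa using h, fun h1 => absurd h1 hanti⟩
  by_cases hC0 : C 0 = univ
  swap
  · exact ⟨F, le_rfl, ∅, by simpa using h, fun _ h1 => absurd h1 hC0⟩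
  by_cases hgood : Good A (⨅ n, F ⊓ 𝓟 (C n)) J
  · obtain ⟨j0, hj0⟩ := hJ
    set F1 := ⨅ n, F ⊓ 𝓟 (C n) with hF1
    have hF1F : F1 ≤ F := (iInf_le _ 0).trans inf_le_left
    have hCF1 : ∀ n, C n ∈ F1 := fun n =>
      (iInf_le (fun n => F ⊓ 𝓟 (C n)) n) (mem_inf_of_right (mem_principal_self _))
    let D : Set ℕ → Set ℕ := fun i =>
      {x | ∀ n, x ∈ C n} ∪ {x | ∃ n, x ∈ A j0 i n ∧ x ∈ C n ∧ x ∉ C (n+1)}
    refine ⟨F1 ⊓ ⨅ i, 𝓟 (D i), inf_le_left.trans hF1F, {j0}, ?_, ?_⟩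
    · intro T hT σ
      by_contra hcon
      rw [not_frequently] at hcon
      have hmem : {x | x ∉ cell A T σ} ∈ F1 ⊓ ⨅ i, 𝓟 (D i) := hcon
      rw [mem_inf_iff] at hmem
      obtain ⟨s, hs, t, ht, hst⟩ := hmem
      rw [mem_iInf_finite] at ht
      obtain ⟨τ, hτ⟩ := ht
      rw [iInf_principal_finset, mem_principal] at hτ
      have h1 := hgood (insert j0 T) (by
        intro j hj
        rcases Finset.mem_insert.1 hj with rfl | hj
        · exact hj0
        · exact (hT j hj).1) (fun j => if j = j0 then τ else σ j)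
      obtain ⟨x, ⟨hx, hxs⟩, hxC⟩ := ((h1.and_eventually (hs : ∀ᶠ x in F1, x ∈ s)).and_eventually
        (hCF1 τ.card : ∀ᶠ x in F1, x ∈ C τ.card)).exists
      have hxcell : x ∈ cell A T σ := by
        intro j hj i hi
        have hne : j ≠ j0 := by
          rintro rfl
          exact (hT j hj).2 (by simp)
        have := hx j (Finset.mem_insert_of_mem hj) i (by simpa [hne] using hi)
        simpa [hne] using this
      have hxt : x ∈ t := by
        apply hτ
        simp only [mem_iInter]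
        intro i hi
        have hxA : x ∈ A j0 i τ.card := by
          have := hx j0 (Finset.mem_insert_self _ _) i (by simpa using hi)
          simpa using this
        by_cases hall : ∀ n, x ∈ C n
        · exact Or.inl hall
        · right
          push Not at hall
          obtain ⟨hm, hm2⟩ : x ∉ C (Nat.find hall) ∧ ∀ k < Nat.find hall, x ∈ C k :=
            ⟨Nat.find_spec hall, fun k hk => by
              have := Nat.find_min hall hk
              simpa using this⟩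
          have hlt : τ.card < Nat.find hall := by
            by_contra hcon2
            exact hm (hanti (not_lt.1 hcon2) hxC)
          obtain ⟨m, hm3⟩ : ∃ m, Nat.find hall = m + 1 := ⟨Nat.find hall - 1, by omega⟩
          refine ⟨m, hA.mono j0 i _ _ (by omega) hxA, hm2 m (by omega), ?_⟩
          rw [← hm3]
          exact hm
      have hxst : x ∈ s ∩ t := ⟨hxs, hxt⟩
      rw [← hst] at hxst
      exact hxst hxcell
    · intro _ _
      right
      refine ⟨D, fun i => mem_inf_of_right (mem_iInf_of_mem i (mem_principal_self _)), ?_⟩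
      intro σ
      have hsub : ({x | ∀ i ∈ σ, x ∈ D i} \ C σ.card) ⊆
          ⋃ n ∈ Set.Iio σ.card, {x | ∀ i ∈ σ, x ∈ A j0 i n} := by
        rintro x ⟨hx, hxC⟩
        have hex : ∃ n, x ∉ C n := ⟨_, hxC⟩
        have hm := Nat.find_spec hex
        have hm2 : ∀ k < Nat.find hex, x ∈ C k := fun k hk => by
          have := Nat.find_min hex hk
          simpa using this
        have hle : Nat.find hex ≤ σ.card := Nat.find_min' hex hxC
        have hpos : Nat.find hex ≠ 0 := by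
          intro h0
          rw [h0, hC0] at hm
          exact hm (mem_univ _)
        obtain ⟨m, hm3⟩ : ∃ m, Nat.find hex = m + 1 := ⟨Nat.find hex - 1, by omega⟩
        rw [hm3] at hm hm2 hle
        simp only [mem_iUnion, mem_Iio]
        refine ⟨m, by omega, fun i hi => ?_⟩
        rcases hx i hi with hall | ⟨n, hn, hnC, hnC'⟩
        · exact absurd (hall _) hxC
        · have : n = m := by
            by_contra hne
            rcases Nat.lt_or_gt_of_ne hne with hlt | hlt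
            · exact hnC' (hm2 _ (by omega))
            · exact hm (hanti (by omega) hnC)
          exact this ▸ hn
      refine Set.Finite.subset ?_ hsub
      exact (Set.finite_Iio _).biUnion fun n hn => hA.fin j0 σ n hn
  · obtain ⟨T, σ, hT, hev⟩ := not_good hgood
    have hdir : Directed (· ≥ ·) (fun n => F ⊓ 𝓟 (C n)) := by
      apply directed_of_isDirected_le
      intro n m hnm
      exact inf_le_inf_left _ (principal_mono.2 (hanti hnm))
    have hev' : {x | x ∉ cell A T σ} ∈ ⨅ n, F ⊓ 𝓟 (C n) := hev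
    rw [mem_iInf_of_directed hdir] at hev'
    obtain ⟨n, hn⟩ := hev'
    refine ⟨F ⊓ 𝓟 (cell A T σ), inf_le_left, T, h.cellAdd T hT σ, fun _ _ => Or.inl ⟨n, ?_⟩⟩
    rw [mem_inf_principal] at hn ⊢
    filter_upwards [hn] with x hx hxc hxE
    exact hx hxE hxc

/-- requirement for a function -/
def ReqG (g : ℕ → ℕ) (F G : Filter ℕ) : Prop :=
  ∀ U V : Ultrafilter ℕ, (U : Filter ℕ) ≤ F → (V : Filter ℕ) ≤ G → (V : Filter ℕ) ≤ cofinite →
    U.map g ≠ V

lemma ReqG.mono {g : ℕ → ℕ} {F G F' G' : Filter ℕ} (h : ReqG g F G) (hF : F' ≤ F) (hG : G' ≤ G) :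
    ReqG g F' G' := fun U V hU hV hVc => h U V (hU.trans hF) (hV.trans hG) hVc

lemma cell_single (j i : Set ℕ) : cell A {j} (fun _ => {i}) = A j i 1 := by
  ext x
  simp [cell]

lemma stepG (hA : IsMat A) (hF : Good A F J) (hG : Good A G J) (hJ : J.Nonempty) (g : ℕ → ℕ) :
    ∃ F' ≤ F, ∃ G' ≤ G, ∃ R : Finset (Set ℕ), Good A F' (J \ ↑R) ∧ Good A G' (J \ ↑R) ∧
      ReqG g F' G' := by
  classical
  obtain ⟨j0, hj0⟩ := hJ
  obtain ⟨F', hF', R, hgood, hdec⟩ := decide_set (hF.mono (sdiff_subset (s := J) (t := {j0})))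
    (g ⁻¹' (A j0 ∅ 1))
  have hrow : ∀ i, Good A (G ⊓ 𝓟 (A j0 i 1)) (J \ ↑(insert j0 R : Finset (Set ℕ))) := by
    intro i
    have h1 := hG.cellAdd {j0} (by simpa using hj0) (fun _ => {i})
    rw [cell_single] at h1
    refine h1.mono ?_
    intro j hj
    refine ⟨hj.1, fun hc => hj.2 ?_⟩
    simp only [Finset.coe_singleton, mem_singleton_iff] at hc
    simp [hc]
  have hF2 : Good A F' (J \ ↑(insert j0 R : Finset (Set ℕ))) := by
    refine hgood.mono ?_
    intro j hj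
    have h2 := hj.2
    simp only [Finset.coe_insert, mem_insert_iff, not_or] at h2
    exact ⟨⟨hj.1, h2.1⟩, h2.2⟩
  rcases hdec with hE | hE
  · refine ⟨F', hF', G ⊓ 𝓟 (A j0 univ 1), inf_le_left, insert j0 R, hF2, hrow _, ?_⟩
    intro U V hU hV hVc heq
    have h1 : A j0 ∅ 1 ∈ V := by
      rw [← heq]
      exact Ultrafilter.mem_map.2 (hU hE)
    have h2 : A j0 univ 1 ∈ V := hV (mem_inf_of_right (mem_principal_self _))
    have hne : (∅ : Set ℕ) ≠ univ := empty_ne_univ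
    have h3 : {x | ∀ i ∈ ({∅, univ} : Finset (Set ℕ)), x ∈ A j0 i 1}.Finite :=
      hA.fin j0 _ 1 (by rw [Finset.card_pair hne]; norm_num)
    have h4 : A j0 ∅ 1 ∩ A j0 univ 1 ∈ V := inter_mem h1 h2
    have h5 : {x | ∀ i ∈ ({∅, univ} : Finset (Set ℕ)), x ∈ A j0 i 1} ∈ V := by
      refine mem_of_superset h4 ?_
      rintro x ⟨hx1, hx2⟩ i hi
      simp only [Finset.mem_insert, Finset.mem_singleton] at hi
      rcases hi with rfl | rfl
      · exact hx1
      · exact hx2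
    have h6 := hVc h3.compl_mem_cofinite
    exact Ultrafilter.compl_mem_iff_notMem.1 h6 h5
  · refine ⟨F', hF', G ⊓ 𝓟 (A j0 ∅ 1), inf_le_left, insert j0 R, hF2, hrow _, ?_⟩
    intro U V hU hV hVc heq
    have h2 : A j0 ∅ 1 ∈ V := hV (mem_inf_of_right (mem_principal_self _))
    rw [← heq] at h2
    have h1 : g ⁻¹' (A j0 ∅ 1) ∈ U := Ultrafilter.mem_map.1 h2
    exact Ultrafilter.compl_mem_iff_notMem.1 (hU hE) h1

lemma Good.lim {Θ : Type} [LinearOrder Θ] (F0 : Filter ℕ) (Φ : Θ → Filter ℕ) (S : Set Θ)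
    (h0 : Good A F0 J) (h : ∀ η ∈ S, Good A (Φ η) J) (hle : ∀ η ∈ S, Φ η ≤ F0)
    (hanti : ∀ η ∈ S, ∀ ζ ∈ S, η ≤ ζ → Φ ζ ≤ Φ η) : Good A (F0 ⊓ ⨅ η ∈ S, Φ η) J := by
  rcases S.eq_empty_or_nonempty with rfl | hS
  · simpa using h0
  intro T hT σ
  have heq : F0 ⊓ ⨅ η ∈ S, Φ η = ⨅ η ∈ S, Φ η := by
    apply inf_eq_right.2
    obtain ⟨η, hη⟩ := hS
    exact (iInf₂_le η hη).trans (hle η hη)
  rw [heq]
  by_contra hcon
  rw [not_frequently] at hcon
  have hmem : {x | x ∉ cell A T σ} ∈ ⨅ η ∈ S, Φ η := hcon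
  have hdir : DirectedOn (Φ ⁻¹'o (· ≥ ·)) S := by
    intro x hx y hy
    rcases le_total x y with hxy | hxy
    · exact ⟨y, hy, hanti x hx y hy hxy, le_refl (Φ y)⟩
    · exact ⟨x, hx, le_refl (Φ x), hanti y hy x hx hxy⟩
  obtain ⟨η, hη, hU⟩ := (mem_biInf_of_directed hdir hS).1 hmem
  exact h η hη T hT σ hU

end Pool.Agent.Q304.KU
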