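import Mathlib
import Pool.Agent.Q304.KU.Step
import Pool.Agent.Q304.Ham.Geom

set_option autoImplicit false

/-!
# Kunen's theorem: many weak P-points
-/

open Set Filter Cardinal

namespace Pool.Agent.Q304.KU

/-- OK ultrafilters. -/
def OK (U : Ultrafilter ℕ) : Prop :=
  ∀ C : ℕ → Set ℕ, Antitone C → C 0 = Set.univ → (∀ n, C n ∈ U) → ∃ D : Set ℕ → Set ℕ,
    (∀ i, D i ∈ U) ∧ ∀ σ : Finset (Set ℕ), ({x | ∀ i ∈ σ, x ∈ D i} \ C σ.card).Finite

theorem kunen {A : Set ℕ → Set ℕ → ℕ → Set ℕ} (hA : IsMat A) (F0 G0 : Filter ℕ)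
    (hF0 : F0 ≤ cofinite) (hG0 : G0 ≤ cofinite) (J0 : Set (Set ℕ)) (hJ0 : #J0 = 𝔠)
    (hF : Good A F0 J0) (hG : Good A G0 J0) :
    ∃ U V : Ultrafilter ℕ, (U : Filter ℕ) ≤ F0 ∧ (V : Filter ℕ) ≤ G0 ∧ OK U ∧ OK V ∧
      (∀ g : ℕ → ℕ, U.map g ≠ V) ∧ (∀ g : ℕ → ℕ, V.map g ≠ U) := by
  classical
  let Q := (ℕ → Set ℕ) × (ℕ → ℕ)
  have hQ : #Q = 𝔠 := by
    simp [Q]
  let Θ := (𝔠 : Cardinal.{0}).ord.ToType
  have hΘ : #Θ = 𝔠 := Cardinal.mk_ord_toType _
  have hIio : ∀ θ : Θ, #(Iio θ) < 𝔠 := fun θ => Cardinal.mk_Iio_ord_toType θ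
  obtain ⟨e⟩ : Nonempty (Θ ≃ Q) := Cardinal.eq.1 (hΘ.trans hQ.symm)
  let T := Filter ℕ × Filter ℕ × Finset (Set ℕ)
  let FF : (Θ → T) → Θ → Filter ℕ := fun f θ => F0 ⊓ ⨅ η ∈ Iio θ, (f η).1
  let GG : (Θ → T) → Θ → Filter ℕ := fun f θ => G0 ⊓ ⨅ η ∈ Iio θ, (f η).2.1
  let JJ : (Θ → T) → Θ → Set (Set ℕ) := fun f θ => {j | j ∈ J0 ∧ ∀ η < θ, j ∉ (f η).2.2}
  let P : (Θ → T) → Θ → T → Prop := fun f θ t =>
    t.1 ≤ FF f θ ∧ t.2.1 ≤ GG f θ ∧ Good A t.1 (JJ f θ \ ↑t.2.2) ∧ Good A t.2.1 (JJ f θ \ ↑t.2.2) ∧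
      ReqC (e θ).1 t.1 ∧ ReqC (e θ).1 t.2.1 ∧ ReqG (e θ).2 t.1 t.2.1 ∧ ReqG (e θ).2 t.2.1 t.1
  have hloc : ∀ f g θ t, (∀ η < θ, f η = g η) → (P f θ t ↔ P g θ t) := by
    intro f g θ t h
    have e1 : FF f θ = FF g θ := by
      simp only [FF]
      congr 1
      exact iInf_congr fun η => iInf_congr fun hη => by rw [h η hη]
    have e2 : GG f θ = GG g θ := by
      simp only [GG]
      congr 1
      exact iInf_congr fun η => iInf_congr fun hη => by rw [h η hη]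
    have e3 : JJ f θ = JJ g θ := by
      ext j
      simp only [JJ, mem_ofPred_eq]
      exact and_congr_right fun _ => forall₂_congr fun η hη => by rw [h η hη]
    simp only [P, e1, e2, e3]
  have hinf : ∀ f θ, (JJ f θ).Infinite := by
    intro f θ hfin
    have h1 : J0 ⊆ JJ f θ ∪ ⋃ η : Iio θ, ((f η).2.2 : Set (Set ℕ)) := by
      intro j hj
      by_cases h : ∀ η < θ, j ∉ (f η).2.2
      · exact Or.inl ⟨hj, h⟩
      · push Not at h
        obtain ⟨η, hη, hj2⟩ := h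
        exact Or.inr (mem_iUnion.2 ⟨⟨η, hη⟩, hj2⟩)
    have h2 : #(⋃ η : Iio θ, ((f η).2.2 : Set (Set ℕ))) < 𝔠 := by
      refine (mk_iUnion_le _).trans_lt ?_
      refine mul_lt_of_lt aleph0_lt_continuum.le (hIio θ) ?_
      refine lt_of_le_of_lt ?_ aleph0_lt_continuum
      refine ciSup_le' fun η => ?_
      exact (Cardinal.lt_aleph0_iff_finite.2 (Finset.finite_toSet _)).le
    have h3 : #(JJ f θ) < 𝔠 := (Cardinal.lt_aleph0_iff_finite.2 hfin).trans aleph0_lt_continuum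
    have h4 := (Cardinal.mk_le_mk_of_subset h1).trans (Cardinal.mk_union_le _ _)
    rw [hJ0] at h4
    exact absurd h4 (not_le.2 (add_lt_of_lt aleph0_lt_continuum.le h3 h2))
  have hinv : ∀ f θ, (∀ η < θ, P f η (f η)) →
      Good A (FF f θ) (JJ f θ) ∧ Good A (GG f θ) (JJ f θ) := by
    intro f θ ih
    have hsub : ∀ η < θ, JJ f θ ⊆ JJ f η \ ↑(f η).2.2 := by
      intro η hη j hj
      exact ⟨⟨hj.1, fun ζ hζ => hj.2 ζ (hζ.trans hη)⟩, by simpa using hj.2 η hη⟩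
    have hJJ : JJ f θ ⊆ J0 := fun j hj => hj.1
    constructor
    · refine Good.lim F0 (fun η => (f η).1) (Iio θ) (hF.mono hJJ) ?_ ?_ ?_
      · intro η hη
        exact (ih η hη).2.2.1.mono (hsub η hη)
      · intro η hη
        exact (ih η hη).1.trans inf_le_left
      · intro η _ ζ hζ hηζ
        rcases hηζ.lt_or_eq with hlt | heq
        · exact (ih ζ hζ).1.trans (inf_le_right.trans (iInf₂_le η hlt))
        · rw [heq]
    · refine Good.lim G0 (fun η => (f η).2.1) (Iio θ) (hG.mono hJJ) ?_ ?_ ?_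
      · intro η hη
        exact (ih η hη).2.2.2.1.mono (hsub η hη)
      · intro η hη
        exact (ih η hη).2.1.trans inf_le_left
      · intro η _ ζ hζ hηζ
        rcases hηζ.lt_or_eq with hlt | heq
        · exact (ih ζ hζ).2.1.trans (inf_le_right.trans (iInf₂_le η hlt))
        · rw [heq]
  have hex : ∀ f θ, (∀ η < θ, P f η (f η)) → ∃ t, P f θ t := by
    intro f θ ih
    obtain ⟨gF, gG⟩ := hinv f θ ih
    have hne : ∀ R : Finset (Set ℕ), (JJ f θ \ ↑R).Nonempty := fun R =>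
      ((hinf f θ).sdiff R.finite_toSet).nonempty
    have hsd : ∀ R S : Finset (Set ℕ), (JJ f θ \ (↑R : Set (Set ℕ))) \ ↑S =
        JJ f θ \ ↑(R ∪ S) := by
      intro R S
      rw [Finset.coe_union, sdiff_sdiff]
    -- sequence for F
    obtain ⟨F1, hF1, R1, gF1, rF1⟩ := stepC hA gF (by simpa using hne ∅) (e θ).1
    have gG1 : Good A (GG f θ) (JJ f θ \ ↑R1) := gG.mono sdiff_subset
    -- sequence for G
    obtain ⟨G1, hG1, R2, gG2, rG1⟩ := stepC hA gG1 (hne R1) (e θ).1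
    rw [hsd] at gG2
    have gF2 : Good A F1 (JJ f θ \ ↑(R1 ∪ R2)) := gF1.mono (sdiff_subset_sdiff_right (by simp))
    -- first comparison
    obtain ⟨F2, hF2, G2, hG2, R3, gF3, gG3, rg⟩ := stepG hA gF2 gG2 (hne _) (e θ).2
    rw [hsd] at gF3 gG3
    -- second comparison
    obtain ⟨G3, hG3, F3, hF3, R4, gG4, gF4, rg'⟩ := stepG hA gG3 gF3 (hne _) (e θ).2
    rw [hsd] at gF4 gG4
    exact ⟨(F3, G3, R1 ∪ R2 ∪ R3 ∪ R4), hF3.trans (hF2.trans hF1), hG3.trans (hG2.trans hG1),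
      gF4, gG4, rF1.mono (hF3.trans hF2), rG1.mono (hG3.trans hG2), rg.mono hF3 hG3,
      rg'⟩
  haveI : Nonempty T := ⟨(⊤, ⊤, ∅)⟩
  obtain ⟨f, hf⟩ := Ham.trec P hloc hex
  have hfin1 : Good A (F0 ⊓ ⨅ η ∈ (Set.univ : Set Θ), (f η).1) (∅ : Set (Set ℕ)) := by
    refine Good.lim F0 (fun η => (f η).1) Set.univ (hF.mono (empty_subset _)) ?_ ?_ ?_
    · intro η _
      exact (hf η).2.2.1.mono (empty_subset _)
    · intro η _
      exact (hf η).1.trans inf_le_left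
    · intro η _ ζ _ hηζ
      rcases hηζ.lt_or_eq with hlt | heq
      · exact (hf ζ).1.trans (inf_le_right.trans (iInf₂_le η hlt))
      · rw [heq]
  have hfin2 : Good A (G0 ⊓ ⨅ η ∈ (Set.univ : Set Θ), (f η).2.1) (∅ : Set (Set ℕ)) := by
    refine Good.lim G0 (fun η => (f η).2.1) Set.univ (hG.mono (empty_subset _)) ?_ ?_ ?_
    · intro η _
      exact (hf η).2.2.2.1.mono (empty_subset _)
    · intro η _
      exact (hf η).2.1.trans inf_le_left
    · intro η _ ζ _ hηζ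
      rcases hηζ.lt_or_eq with hlt | heq
      · exact (hf ζ).2.1.trans (inf_le_right.trans (iInf₂_le η hlt))
      · rw [heq]
  haveI n1 := hfin1.neBot
  haveI n2 := hfin2.neBot
  obtain ⟨U, hU⟩ := Ultrafilter.exists_le (F0 ⊓ ⨅ η ∈ (Set.univ : Set Θ), (f η).1)
  obtain ⟨V, hV⟩ := Ultrafilter.exists_le (G0 ⊓ ⨅ η ∈ (Set.univ : Set Θ), (f η).2.1)
  have hUη : ∀ η, (U : Filter ℕ) ≤ (f η).1 := fun η =>
    hU.trans (inf_le_right.trans (iInf₂_le η (mem_univ _)))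
  have hVη : ∀ η, (V : Filter ℕ) ≤ (f η).2.1 := fun η =>
    hV.trans (inf_le_right.trans (iInf₂_le η (mem_univ _)))
  have hU0 := hU.trans inf_le_left
  have hV0 := hV.trans inf_le_left
  have hreq : ∀ (W : Ultrafilter ℕ) (C : ℕ → Set ℕ), ReqC C W → Antitone C → C 0 = Set.univ →
      (∀ n, C n ∈ W) → ∃ D : Set ℕ → Set ℕ,
      (∀ i, D i ∈ W) ∧ ∀ σ : Finset (Set ℕ), ({x | ∀ i ∈ σ, x ∈ D i} \ C σ.card).Finite := by
    intro W C hR h1 h2 h3
    rcases hR h1 h2 with ⟨n, hn⟩ | h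
    · exact absurd (h3 n) (Ultrafilter.compl_mem_iff_notMem.1 hn)
    · exact h
  refine ⟨U, V, hU0, hV0, ?_, ?_, ?_, ?_⟩
  · intro C h1 h2 h3
    obtain ⟨θ, hθ⟩ := e.surjective (C, id)
    have h := (hf θ).2.2.2.2.1
    rw [hθ] at h
    exact hreq U C (h.mono (hUη θ)) h1 h2 h3
  · intro C h1 h2 h3
    obtain ⟨θ, hθ⟩ := e.surjective (C, id)
    have h := (hf θ).2.2.2.2.2.1
    rw [hθ] at h
    exact hreq V C (h.mono (hVη θ)) h1 h2 h3
  · intro g
    obtain ⟨θ, hθ⟩ := e.surjective (fun _ => ∅, g)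
    have h := (hf θ).2.2.2.2.2.2.1
    rw [hθ] at h
    exact h U V (hUη θ) (hVη θ) (hV0.trans hG0)
  · intro g
    obtain ⟨θ, hθ⟩ := e.surjective (fun _ => ∅, g)
    have h := (hf θ).2.2.2.2.2.2.2
    rw [hθ] at h
    exact h V U (hVη θ) (hUη θ) (hU0.trans hF0)

/-- A nonprincipal ultrafilter that is not a limit of a sequence of other nonprincipal
ultrafilters. -/
def WeakP (U : Ultrafilter ℕ) : Prop :=
  (U : Filter ℕ) ≤ cofinite ∧ ∀ r : ℕ → Ultrafilter ℕ, (∀ n, (r n : Filter ℕ) ≤ cofinite) →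
    (∀ n, r n ≠ U) → ∃ B ∈ U, ∀ n, B ∉ r n

lemma OK.weakP {U : Ultrafilter ℕ} (h : OK U) (hU : (U : Filter ℕ) ≤ cofinite) : WeakP U := by
  classical
  refine ⟨hU, fun r hr hne => ?_⟩
  have hB : ∀ n, ∃ B ∈ U, B ∉ r n := by
    intro n
    by_contra hcon
    push Not at hcon
    exact hne n (Ultrafilter.coe_le_coe.1 (fun B hB => hcon B hB))
  choose B hBU hBr using hB
  let C : ℕ → Set ℕ := fun n => {x | ∀ m < n, x ∈ B m}
  have hC1 : Antitone C := fun n m hnm x hx k hk => hx k (hk.trans_le hnm)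
  have hC0 : C 0 = Set.univ := by ext x; simp [C]
  have hCU : ∀ n, C n ∈ U := by
    intro n
    have : C n = ⋂ m ∈ Finset.range n, B m := by
      ext x; simp [C]
    rw [this]
    exact (Filter.biInter_finset_mem _).2 fun m _ => hBU m
  obtain ⟨D, hD, hD2⟩ := h C hC1 hC0 hCU
  have hfin : ∀ m, {i | D i ∈ r m}.Finite := by
    intro m
    by_contra hcon
    obtain ⟨σ, hσ, hcard⟩ := Set.Infinite.exists_subset_card_eq hcon (m + 1)
    have h1 : {x | ∀ i ∈ σ, x ∈ D i} ∈ r m := by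
      have : {x | ∀ i ∈ σ, x ∈ D i} = ⋂ i ∈ σ, D i := by ext x; simp
      rw [this]
      exact (Filter.biInter_finset_mem _).2 fun i hi => hσ hi
    have h2 := hD2 σ
    rw [hcard] at h2
    have h3 := hr m h2.compl_mem_cofinite
    have h4 : B m ∈ r m := by
      refine mem_of_superset (inter_mem h1 h3) ?_
      rintro x ⟨hx1, hx2⟩
      by_contra hxB
      exact hx2 ⟨hx1, fun hxC => hxB (hxC m (Nat.lt_succ_self m))⟩
    exact hBr m h4
  have hcount : (⋃ m, {i | D i ∈ r m}).Countable := Set.countable_iUnion fun m => (hfin m).countable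
  have hunc : ¬ (Set.univ : Set (Set ℕ)).Countable := by
    intro hc
    have h1 := Cardinal.mk_le_aleph0_iff.2 hc.to_subtype
    rw [Cardinal.mk_univ, Cardinal.mk_set_nat] at h1
    exact absurd h1 (not_le.2 aleph0_lt_continuum)
  obtain ⟨i, hi⟩ : ∃ i, i ∉ ⋃ m, {i | D i ∈ r m} := by
    by_contra hcon
    push Not at hcon
    exact hunc (hcount.mono fun i _ => hcon i)
  exact ⟨D i, hD i, fun n hn => hi (mem_iUnion.2 ⟨n, hn⟩)⟩

/-- Two Rudin-Keisler incomparable weak P-points. -/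
theorem exists_pair : ∃ U V : Ultrafilter ℕ, WeakP U ∧ WeakP V ∧
    (∀ g : ℕ → ℕ, U.map g ≠ V) ∧ (∀ g : ℕ → ℕ, V.map g ≠ U) := by
  obtain ⟨A, h1, h2, h3⟩ := exists_matrix
  have hgood : Good A cofinite Set.univ := by
    intro T _ σ
    rw [frequently_cofinite_iff_infinite]
    exact h3 T σ
  obtain ⟨U, V, hU, hV, oU, oV, hg, hg'⟩ := kunen ⟨h1, h2⟩ cofinite cofinite le_rfl le_rfl
    Set.univ (by rw [Cardinal.mk_univ, Cardinal.mk_set_nat]) hgood hgood
  exact ⟨U, V, oU.weakP hU, oV.weakP hV, hg, hg'⟩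

/-- There are `2 ^ 𝔠` weak P-points. -/
theorem exists_many : ∃ u : Set (Set ℕ) → Ultrafilter ℕ, Function.Injective u ∧
    ∀ H, WeakP (u H) := by
  classical
  obtain ⟨A, h1, h2, h3⟩ := exists_matrix
  have hgood : Good A cofinite Set.univ := by
    intro T _ σ
    rw [frequently_cofinite_iff_infinite]
    exact h3 T σ
  -- split the rows
  obtain ⟨ε⟩ : Nonempty (Set ℕ ⊕ Set ℕ ≃ Set ℕ) := by
    apply Cardinal.eq.1
    simp [Cardinal.mk_set_nat]
  let J0 : Set (Set ℕ) := Set.range (fun a => ε (Sum.inl a))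
  have hJ0 : #J0 = 𝔠 := by
    have h := Cardinal.mk_range_eq (fun a => ε (Sum.inl a)) (ε.injective.comp Sum.inl_injective)
    exact h.trans Cardinal.mk_set_nat
  have key : ∀ H : Set (Set ℕ), ∃ U : Ultrafilter ℕ, WeakP U ∧
      ∀ a, A (ε (Sum.inr a)) (if a ∈ H then ∅ else Set.univ) 1 ∈ U := by
    intro H
    let c : Set ℕ → Set ℕ := fun a => if a ∈ H then ∅ else Set.univ
    let F : Filter ℕ := cofinite ⊓ ⨅ a, 𝓟 (A (ε (Sum.inr a)) (c a) 1)
    have hF : Good A F J0 := by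
      intro T hT σ
      by_contra hcon
      rw [not_frequently] at hcon
      have hmem : {x | x ∉ cell A T σ} ∈ cofinite ⊓ ⨅ a, 𝓟 (A (ε (Sum.inr a)) (c a) 1) := hcon
      rw [mem_inf_iff] at hmem
      obtain ⟨s, hs, t, ht, hst⟩ := hmem
      rw [mem_iInf_finite] at ht
      obtain ⟨τ, hτ⟩ := ht
      rw [iInf_principal_finset, mem_principal] at hτ
      let σ' : Set ℕ → Finset (Set ℕ) := fun j => match ε.symm j with
        | Sum.inl _ => σ j
        | Sum.inr a => {c a}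
      have h4 := hgood (T ∪ τ.image (fun a => ε (Sum.inr a))) (fun _ _ => mem_univ _) σ'
      obtain ⟨x, hx, hxs⟩ := (h4.and_eventually (hs : ∀ᶠ x in cofinite, x ∈ s)).exists
      have hxcell : x ∈ cell A T σ := by
        intro j hj i hi
        obtain ⟨a, rfl⟩ := hT j hj
        have e1 : σ' (ε (Sum.inl a)) = σ (ε (Sum.inl a)) := by simp [σ']
        have := hx (ε (Sum.inl a)) (Finset.mem_union_left _ hj) i (by rw [e1]; exact hi)
        rwa [e1] at this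
      have hxt : x ∈ t := by
        apply hτ
        simp only [mem_iInter]
        intro a ha
        have e1 : σ' (ε (Sum.inr a)) = {c a} := by simp [σ']
        have := hx (ε (Sum.inr a)) (Finset.mem_union_right _ (Finset.mem_image_of_mem _ ha)) (c a)
          (by rw [e1]; simp)
        rw [e1] at this
        simpa using this
      have hxst : x ∈ s ∩ t := ⟨hxs, hxt⟩
      rw [← hst] at hxst
      exact hxst hxcell
    obtain ⟨U, V, hU, -, oU, -, -, -⟩ := kunen ⟨h1, h2⟩ F F inf_le_left inf_le_left J0 hJ0 hF hF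
    refine ⟨U, oU.weakP (hU.trans inf_le_left), fun a => hU ?_⟩
    exact mem_inf_of_right (mem_iInf_of_mem a (mem_principal_self _))
  choose u hu1 hu2 using key
  refine ⟨u, ?_, hu1⟩
  intro H H' hHH
  by_contra hne
  obtain ⟨a, ha⟩ : ∃ a, ¬ (a ∈ H ↔ a ∈ H') := by
    by_contra hcon
    push Not at hcon
    exact hne (Set.ext hcon)
  have b1 := hu2 H a
  have b2 := hu2 H' a
  rw [← hHH] at b2
  have b3 : A (ε (Sum.inr a)) ∅ 1 ∈ u H ∧ A (ε (Sum.inr a)) Set.univ 1 ∈ u H := by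
    by_cases h : a ∈ H
    · have h' : a ∉ H' := fun h' => ha ⟨fun _ => h', fun _ => h⟩
      rw [if_pos h] at b1
      rw [if_neg h'] at b2
      exact ⟨b1, b2⟩
    · have h' : a ∈ H' := by
        by_contra h'
        exact ha ⟨fun x => absurd x h, fun x => absurd x h'⟩
      rw [if_neg h] at b1
      rw [if_pos h'] at b2
      exact ⟨b2, b1⟩
  have hne2 : (∅ : Set ℕ) ≠ Set.univ := empty_ne_univ
  have h5 : {x | ∀ i ∈ ({∅, Set.univ} : Finset (Set ℕ)), x ∈ A (ε (Sum.inr a)) i 1}.Finite :=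
    h2 (ε (Sum.inr a)) _ 1 (by rw [Finset.card_pair hne2]; norm_num)
  have h6 : {x | ∀ i ∈ ({∅, Set.univ} : Finset (Set ℕ)), x ∈ A (ε (Sum.inr a)) i 1} ∈ u H := by
    refine mem_of_superset (inter_mem b3.1 b3.2) ?_
    rintro x ⟨hx1, hx2⟩ i hi
    simp only [Finset.mem_insert, Finset.mem_singleton] at hi
    rcases hi with rfl | rfl
    · exact hx1
    · exact hx2
  exact Ultrafilter.compl_mem_iff_notMem.1 ((hu1 H).1 h5.compl_mem_cofinite) h6

end Pool.Agent.Q304.KU
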