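import Mathlib
import Pool.Agent.Q304.KU.Main

set_option autoImplicit false

/-!
# The Rudin-Frolik order: predecessors of a sum
-/

open Set Filter

namespace Pool.Agent.Q304.KU

/-- The sequence `f` is separated by `κ`. -/
def Sep (f : ℕ → Ultrafilter ℕ) (κ : ℕ → ℕ) : Prop := ∀ n, κ ⁻¹' {n} ∈ f n

/-- nonprincipal -/
def NP (u : Ultrafilter ℕ) : Prop := (u : Filter ℕ) ≤ cofinite

/-- Rudin-Frolik order -/
def LeRF (u v : Ultrafilter ℕ) : Prop := ∃ f κ, Sep f κ ∧ u.bind f = v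

lemma mem_bnd {u : Ultrafilter ℕ} {f : ℕ → Ultrafilter ℕ} {s : Set ℕ} :
    s ∈ u.bind f ↔ {n | s ∈ f n} ∈ u := Filter.mem_bind'

lemma uext {u v : Ultrafilter ℕ} (h : ∀ s, s ∈ u → s ∈ v) : v = u := Ultrafilter.coe_le_coe.1 h

lemma exists_of_ne {u v : Ultrafilter ℕ} (h : u ≠ v) : ∃ s ∈ u, s ∉ v := by
  by_contra hcon
  push Not at hcon
  exact h (uext hcon).symm

lemma np_or (u : Ultrafilter ℕ) : NP u ∨ ∃ n, u = pure n := Ultrafilter.le_cofinite_or_eq_pure u

lemma not_np_pure (n : ℕ) : ¬ NP (pure n : Ultrafilter ℕ) := by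
  intro h
  have h1 : ({n} : Set ℕ)ᶜ ∈ (pure n : Ultrafilter ℕ) := h (Set.finite_singleton n).compl_mem_cofinite
  exact Ultrafilter.mem_pure.1 h1 rfl

lemma not_np_iff (u : Ultrafilter ℕ) : ¬ NP u ↔ ∃ n, u = pure n := by
  constructor
  · intro h
    exact (np_or u).resolve_left h
  · rintro ⟨n, rfl⟩
    exact not_np_pure n

lemma np_of_map {u : Ultrafilter ℕ} (g : ℕ → ℕ) (h : NP (u.map g)) : NP u := by
  by_contra hcon
  obtain ⟨n, rfl⟩ := (not_np_iff u).1 hcon
  exact not_np_pure (g n) h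

lemma bind_congr {u : Ultrafilter ℕ} {f g : ℕ → Ultrafilter ℕ} (h : {n | f n = g n} ∈ u) :
    u.bind f = u.bind g := by
  symm
  apply uext
  intro s hs
  rw [mem_bnd] at hs ⊢
  refine mem_of_superset (inter_mem hs h) ?_
  rintro n ⟨hn1, hn2⟩
  have e : f n = g n := hn2
  change s ∈ g n
  rw [← e]
  exact hn1

lemma Sep.pre {f : ℕ → Ultrafilter ℕ} {κ : ℕ → ℕ} (h : Sep f κ) (n : ℕ) (s : Set ℕ) :
    κ ⁻¹' s ∈ f n ↔ n ∈ s := by
  constructor
  · intro h1
    obtain ⟨k, hk1, hk2⟩ := (f n).nonempty_of_mem (inter_mem h1 (h n))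
    have h2 : κ k ∈ s := hk1
    have h3 : κ k = n := hk2
    rwa [h3] at h2
  · intro h1
    refine mem_of_superset (h n) ?_
    intro k hk
    have h3 : κ k = n := hk
    change κ k ∈ s
    rwa [h3]

lemma Sep.map_eq {f : ℕ → Ultrafilter ℕ} {κ : ℕ → ℕ} (h : Sep f κ) (n : ℕ) :
    (f n).map κ = pure n := by
  symm
  apply uext
  intro s hs
  exact (h.pre n s).1 hs

lemma Sep.map_bind {f : ℕ → Ultrafilter ℕ} {κ : ℕ → ℕ} (h : Sep f κ) (u : Ultrafilter ℕ) :
    (u.bind f).map κ = u := by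
  symm
  apply uext
  intro s hs
  have h1 : κ ⁻¹' s ∈ u.bind f := hs
  rw [mem_bnd] at h1
  refine mem_of_superset h1 ?_
  intro n hn
  exact (h.pre n s).1 hn

lemma Sep.np_bind {f : ℕ → Ultrafilter ℕ} {κ : ℕ → ℕ} (h : Sep f κ) {u : Ultrafilter ℕ} (hu : NP u) :
    NP (u.bind f) := np_of_map κ (by rwa [h.map_bind])

lemma map_bnd (u : Ultrafilter ℕ) (f : ℕ → Ultrafilter ℕ) (g : ℕ → ℕ) :
    (u.bind f).map g = u.bind (fun n => (f n).map g) := by
  symm
  apply uext
  intro s hs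
  have h1 : g ⁻¹' s ∈ u.bind f := hs
  rw [mem_bnd] at h1 ⊢
  exact h1

lemma bind_bind (u : Ultrafilter ℕ) (f g : ℕ → Ultrafilter ℕ) :
    (u.bind f).bind g = u.bind (fun n => (f n).bind g) := by
  symm
  apply uext
  intro s hs
  rw [mem_bnd, mem_bnd] at hs
  rw [mem_bnd]
  refine mem_of_superset hs ?_
  intro n hn
  exact mem_bnd.2 hn

lemma pure_bind' (n : ℕ) (f : ℕ → Ultrafilter ℕ) : (pure n : Ultrafilter ℕ).bind f = f n := by
  symm
  apply uext
  intro s hs
  rw [mem_bnd] at hs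
  exact Ultrafilter.mem_pure.1 hs

lemma Sep.comp {f g : ℕ → Ultrafilter ℕ} {κ σ : ℕ → ℕ} (hf : Sep f κ) (hg : Sep g σ) :
    Sep (fun n => (f n).bind g) (κ ∘ σ) := by
  intro n
  rw [mem_bnd]
  have : {m | (κ ∘ σ) ⁻¹' {n} ∈ g m} = κ ⁻¹' {n} := by
    ext m
    exact hg.pre m (κ ⁻¹' {n})
  rw [this]
  exact hf n

lemma LeRF.refl (u : Ultrafilter ℕ) : LeRF u u := by
  refine ⟨fun n => pure n, id, fun n => Ultrafilter.mem_pure.2 rfl, ?_⟩
  symm
  apply uext
  intro s hs
  rw [mem_bnd] at hs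
  exact mem_of_superset hs fun n hn => Ultrafilter.mem_pure.1 hn

lemma LeRF.trans {u v x : Ultrafilter ℕ} (h : LeRF u v) (h' : LeRF v x) : LeRF u x := by
  obtain ⟨f, κ, hf, rfl⟩ := h
  obtain ⟨g, σ, hg, rfl⟩ := h'
  exact ⟨_, _, hf.comp hg, (bind_bind u f g).symm⟩

lemma LeRF.np {u v : Ultrafilter ℕ} (h : LeRF u v) (hu : NP u) : NP v := by
  obtain ⟨f, κ, hf, rfl⟩ := h
  exact hf.np_bind hu

/-- splitting an infinite set -/
lemma split_infinite (N : Set ℕ) (hN : N.Infinite) : ∃ M ⊆ N, M.Infinite ∧ (N \ M).Infinite := by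
  have : Infinite N := hN.to_subtype
  obtain e := Infinite.natEmbedding N
  refine ⟨Set.range (fun k => (e (2 * k) : ℕ)), ?_, ?_, ?_⟩
  · rintro _ ⟨k, rfl⟩
    exact (e (2*k)).2
  · apply Set.infinite_range_of_injective
    intro a b h
    have := e.injective (Subtype.ext h)
    omega
  · have h1 : (Set.range (fun k => (e (2 * k + 1) : ℕ))).Infinite := by
      apply Set.infinite_range_of_injective
      intro a b h
      have := e.injective (Subtype.ext h)
      omega
    refine h1.mono ?_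
    rintro _ ⟨k, rfl⟩
    refine ⟨(e (2*k+1)).2, ?_⟩
    rintro ⟨l, hl⟩
    have := e.injective (Subtype.ext hl)
    omega

lemma NP.infinite {u : Ultrafilter ℕ} (hu : NP u) {N : Set ℕ} (hN : N ∈ u) : N.Infinite := by
  intro hfin
  exact Ultrafilter.compl_mem_iff_notMem.1 (hu hfin.compl_mem_cofinite) hN

open Classical in
lemma iota {u : Ultrafilter ℕ} (hu : NP u) {N : Set ℕ} (hN : N ∈ u) :
    ∃ ι : ℕ → ℕ, Function.Injective ι ∧ (∀ i, ι i ∈ N) ∧ {i | ι i = i} ∈ u := by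
  have key : ∀ M M' : Set ℕ, M ⊆ N → M' ⊆ N → M'.Infinite → Disjoint M M' → M ∈ u →
      ∃ ι : ℕ → ℕ, Function.Injective ι ∧ (∀ i, ι i ∈ N) ∧ {i | ι i = i} ∈ u := by
    intro M M' hM hM' hinf hdisj hMu
    have : Infinite M' := hinf.to_subtype
    obtain e := Infinite.natEmbedding M'
    refine ⟨fun i => if i ∈ M then i else e i, ?_, ?_, ?_⟩
    · intro i j hij
      by_cases hi : i ∈ M <;> by_cases hj : j ∈ M
      · simpa [hi, hj] using hij
      · simp only [hi, hj, if_true, if_false] at hij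
        exact absurd (hij ▸ (e j).2) (Set.disjoint_left.1 hdisj hi)
      · simp only [hi, hj, if_true, if_false] at hij
        exact absurd (hij.symm ▸ (e i).2) (Set.disjoint_left.1 hdisj hj)
      · simp only [hi, hj, if_false] at hij
        exact e.injective (Subtype.ext hij)
    · intro i
      by_cases hi : i ∈ M
      · simpa [hi] using hM hi
      · simpa [hi] using hM' (e i).2
    · refine mem_of_superset hMu ?_
      intro i hi
      simp [hi]
  obtain ⟨M, hMN, hM1, hM2⟩ := split_infinite N (hu.infinite hN)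
  by_cases hM : M ∈ u
  · exact key M (N \ M) hMN sdiff_subset hM2 disjoint_sdiff_right hM
  · refine key (N \ M) M sdiff_subset hMN hM1 disjoint_sdiff_left ?_
    exact inter_mem hN (Ultrafilter.compl_mem_iff_notMem.2 hM)

open Classical in
/-- making a sequence separated -/
lemma ext_sep {u : Ultrafilter ℕ} (hu : NP u) {N : Set ℕ} (hN : N ∈ u) (f : ℕ → Ultrafilter ℕ)
    (C : ℕ → Set ℕ) (hC : ∀ n ∈ N, C n ∈ f n)
    (hd : ∀ n ∈ N, ∀ m ∈ N, n ≠ m → Disjoint (C n) (C m)) :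
    ∃ f' κ, Sep f' κ ∧ {n | f' n = f n} ∈ u ∧ ∀ n, ∃ m ∈ N, f' n = f m := by
  obtain ⟨ι, hι1, hι2, hι3⟩ := iota hu hN
  let κ : ℕ → ℕ := fun x => if h : ∃ n, x ∈ C (ι n) then h.choose else 0
  refine ⟨fun n => f (ι n), κ, ?_, ?_, fun n => ⟨ι n, hι2 n, rfl⟩⟩
  · intro n
    refine mem_of_superset (hC (ι n) (hι2 n)) ?_
    intro x hx
    have hex : ∃ n, x ∈ C (ι n) := ⟨n, hx⟩
    have h1 : κ x = hex.choose := dif_pos hex
    have h2 := hex.choose_spec
    change κ x = n
    rw [h1]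
    by_contra hne
    exact Set.disjoint_left.1 (hd _ (hι2 _) _ (hι2 _) (fun h => hne (hι1 h))) h2 hx
  · refine mem_of_superset hι3 ?_
    intro n hn
    have : ι n = n := hn
    change f (ι n) = f n
    rw [this]

lemma pure_le (n : ℕ) (v : Ultrafilter ℕ) : LeRF (pure n) v := by
  classical
  obtain ⟨M, -, hM1, hM2⟩ := split_infinite Set.univ Set.infinite_univ
  have key : ∀ E : Set ℕ, E ∈ v → Eᶜ.Infinite → LeRF (pure n) v := by
    intro E hE hinf
    have : Infinite (Eᶜ : Set ℕ) := hinf.to_subtype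
    obtain e := Infinite.natEmbedding (Eᶜ : Set ℕ)
    let κ : ℕ → ℕ := fun x => if h : ∃ m, (e m : ℕ) = x then h.choose else n
    refine ⟨fun m => if m = n then v else pure (e m : ℕ), κ, ?_, ?_⟩
    · intro m
      by_cases hm : m = n
      · simp only [hm, if_true]
        refine mem_of_superset hE ?_
        intro x hx
        have : ¬ ∃ m, (e m : ℕ) = x := by
          rintro ⟨m, rfl⟩
          exact (e m).2 hx
        exact dif_neg this
      · simp only [hm, if_false]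
        apply Ultrafilter.mem_pure.2
        have hex : ∃ m', (e m' : ℕ) = (e m : ℕ) := ⟨m, rfl⟩
        have h1 : κ (e m : ℕ) = hex.choose := dif_pos hex
        change κ (e m : ℕ) = m
        rw [h1]
        exact e.injective (Subtype.ext hex.choose_spec)
    · rw [pure_bind']
      simp
  by_cases hM : M ∈ v
  · refine key M hM ?_
    rwa [← Set.compl_eq_univ_sdiff] at hM2
  · exact key Mᶜ (Ultrafilter.compl_mem_iff_notMem.2 hM) (by rwa [compl_compl])

lemma le_of_large {u : Ultrafilter ℕ} {N : Set ℕ} (hN : N ∈ u) (f : ℕ → Ultrafilter ℕ)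
    (C : ℕ → Set ℕ) (hC : ∀ n ∈ N, C n ∈ f n)
    (hd : ∀ n ∈ N, ∀ m ∈ N, n ≠ m → Disjoint (C n) (C m)) : LeRF u (u.bind f) := by
  rcases np_or u with hu | ⟨n, rfl⟩
  · obtain ⟨f', κ, h1, h2, -⟩ := ext_sep hu hN f C hC hd
    exact ⟨f', κ, h1, bind_congr h2⟩
  · exact pure_le _ _

/-- Irreflexivity. -/
lemma irr {u : Ultrafilter ℕ} {k : ℕ → Ultrafilter ℕ} {κ : ℕ → ℕ} (hk : Sep k κ)
    (hnp : {n | NP (k n)} ∈ u) : u.bind k ≠ u := by
  intro heq
  have hmap : u.map κ = u := by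
    conv_lhs => rw [← heq]
    exact hk.map_bind u
  have hA : {x | κ x < x} ∈ u := by
    rw [← heq, mem_bnd]
    refine mem_of_superset hnp ?_
    intro n hn
    have h1 : {x : ℕ | n < x} ∈ k n := by
      apply hn
      rw [mem_cofinite]
      refine (Set.finite_Iic n).subset ?_
      intro y hy
      simpa using hy
    refine mem_of_superset (inter_mem h1 (hk n)) ?_
    rintro x ⟨hx1, hx2⟩
    have e : κ x = n := hx2
    have hx1' : n < x := hx1
    change κ x < x
    omega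
  -- number of steps
  obtain ⟨h, hh⟩ : ∃ h : ℕ → ℕ, ∀ x, κ x < x → h x = h (κ x) + 1 := by
    let F : (x : ℕ) → ((y : ℕ) → y < x → ℕ) → ℕ := fun x g =>
      if hx : κ x < x then g (κ x) hx + 1 else 0
    refine ⟨WellFounded.fix (wellFounded_lt (α := ℕ)) F, fun x hx => ?_⟩
    rw [WellFounded.fix_eq]
    exact dif_pos hx
  have hpar : ∀ P : Set ℕ, (∀ x, κ x < x → x ∈ P → κ x ∉ P) → P ∉ u := by
    intro P hP hPu
    have h1 : κ ⁻¹' P ∈ u := by
      rw [← hmap] at hPu
      exact hPu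
    obtain ⟨x, hx1, hx2, hx3⟩ := u.nonempty_of_mem (inter_mem hA (inter_mem hPu h1))
    exact hP x hx1 hx2 hx3
  have h1 := hpar {x | Even (h x)} (by
    intro x hx hxP hκ
    have e1 : Even (h x) := hxP
    have e2 : Even (h (κ x)) := hκ
    rw [hh x hx] at e1
    exact (Nat.even_add_one.1 e1) e2)
  have h2 := hpar {x | Even (h x)}ᶜ (by
    intro x hx hxP hκ
    have e1 : ¬ Even (h x) := hxP
    have e2 : ¬ Even (h (κ x)) := hκ
    rw [hh x hx] at e1
    exact e1 (Nat.even_add_one.2 e2))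
  exact h2 (Ultrafilter.compl_mem_iff_notMem.2 h1)

/-- The base of a sum of nonprincipal ultrafilters is strictly below the sum. -/
lemma strict {u : Ultrafilter ℕ} {f : ℕ → Ultrafilter ℕ} {κ : ℕ → ℕ} (hf : Sep f κ)
    (hnp : {n | NP (f n)} ∈ u) : ¬ LeRF (u.bind f) u := by
  rintro ⟨g, σ, hg, heq⟩
  rw [bind_bind] at heq
  refine irr (hf.comp hg) ?_ heq
  exact mem_of_superset hnp fun n hn => hg.np_bind hn

/-- A sum of principal ultrafilters is below its base. -/
lemma weak_back {u : Ultrafilter ℕ} {f : ℕ → Ultrafilter ℕ} {κ : ℕ → ℕ} (hf : Sep f κ)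
    (hnp : {n | NP (f n)} ∉ u) : LeRF (u.bind f) u := by
  classical
  have hN : {n | ¬ NP (f n)} ∈ u := Ultrafilter.compl_mem_iff_notMem.2 hnp
  have hex : ∀ n, ∃ a, ¬ NP (f n) → f n = pure a := by
    intro n
    rcases np_or (f n) with h | ⟨a, ha⟩
    · exact ⟨0, fun h' => absurd h h'⟩
    · exact ⟨a, fun _ => ha⟩
  choose a ha using hex
  have hκ : ∀ n, ¬ NP (f n) → κ (a n) = n := by
    intro n hn
    have h1 := hf n
    rw [ha n hn] at h1
    exact Ultrafilter.mem_pure.1 h1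
  have hmem : a '' {n | ¬ NP (f n)} ∈ u.bind f := by
    rw [mem_bnd]
    refine mem_of_superset hN ?_
    intro n hn
    change _ ∈ f n
    rw [ha n hn]
    exact Ultrafilter.mem_pure.2 ⟨n, hn, rfl⟩
  have h2 : (u.bind f).bind (fun m => pure (κ m)) = u := by
    have h3 := hf.map_bind u
    refine Eq.trans ?_ h3
    symm
    apply uext
    intro s hs
    rw [mem_bnd] at hs
    exact hs
  have h3 := le_of_large hmem (fun m => pure (κ m)) (fun m => {κ m})
    (fun m _ => Ultrafilter.mem_pure.2 rfl) (by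
      rintro _ ⟨n, hn, rfl⟩ _ ⟨m, hm, rfl⟩ hne
      rw [hκ n hn, hκ m hm]
      rw [Set.disjoint_singleton]
      rintro rfl
      exact hne rfl)
  rwa [h2] at h3

open Classical in
/-- Frolik's lemma. -/
lemma frolik {u r : Ultrafilter ℕ} {f g : ℕ → Ultrafilter ℕ} {κ σ : ℕ → ℕ} (hf : Sep f κ)
    (hg : Sep g σ) (heq : u.bind f = r.bind g) :
    {m | ((g m).map κ).bind f = g m} ∈ r ∨ {n | ((f n).map σ).bind g = f n} ∈ u := by
  by_contra hcon
  push Not at hcon
  obtain ⟨h1, h2⟩ := hcon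
  -- separating sets
  have key : ∀ (f g : ℕ → Ultrafilter ℕ) (κ : ℕ → ℕ), Sep f κ → ∀ m, ∃ E : Set ℕ,
      (∀ n, E ∉ f n) ∧ (((g m).map κ).bind f ≠ g m → E ∈ g m) := by
    intro f g κ hf m
    by_cases hm : ((g m).map κ).bind f = g m
    · exact ⟨∅, fun n => (f n).empty_notMem, fun h => absurd hm h⟩
    · obtain ⟨E, hE1, hE2⟩ := exists_of_ne (Ne.symm hm)
      rw [mem_bnd] at hE2
      refine ⟨E ∩ κ ⁻¹' {n | E ∈ f n}ᶜ, ?_, fun _ => ?_⟩
      · intro n hn
        have a1 : E ∈ f n := mem_of_superset hn inter_subset_left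
        have a2 : κ ⁻¹' {n | E ∈ f n}ᶜ ∈ f n := mem_of_superset hn inter_subset_right
        exact (hf.pre n _).1 a2 a1
      · refine inter_mem hE1 ?_
        have : {n | E ∈ f n}ᶜ ∈ (g m).map κ := Ultrafilter.compl_mem_iff_notMem.2 hE2
        exact this
  choose E hE1 hE2 using key f g κ hf
  choose D hD1 hD2 using key g f σ hg
  let A : Set ℕ := {y | ∃ n, y ∈ D n ∧ ∀ m ≤ n, y ∉ E m}
  let B : Set ℕ := {y | ∃ m, y ∈ E m ∧ ∀ n < m, y ∉ D n}
  have hA : A ∈ u.bind f := by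
    rw [mem_bnd]
    refine mem_of_superset (Ultrafilter.compl_mem_iff_notMem.2 h2) ?_
    intro n hn
    have hb : (⋂ m ∈ Finset.range (n + 1), (E m)ᶜ) ∈ f n :=
      (Filter.biInter_finset_mem _).2 fun m _ => Ultrafilter.compl_mem_iff_notMem.2 (hE1 m n)
    refine mem_of_superset (inter_mem (hD2 n hn) hb) ?_
    rintro y ⟨hy1, hy2⟩
    simp only [mem_iInter, Finset.mem_range] at hy2
    exact ⟨n, hy1, fun m hm => hy2 m (by omega)⟩
  have hB : B ∈ r.bind g := by
    rw [mem_bnd]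
    refine mem_of_superset (Ultrafilter.compl_mem_iff_notMem.2 h1) ?_
    intro m hm
    have hb : (⋂ n ∈ Finset.range m, (D n)ᶜ) ∈ g m :=
      (Filter.biInter_finset_mem _).2 fun n _ => Ultrafilter.compl_mem_iff_notMem.2 (hD1 n m)
    refine mem_of_superset (inter_mem (hE2 m hm) hb) ?_
    rintro y ⟨hy1, hy2⟩
    simp only [mem_iInter, Finset.mem_range] at hy2
    exact ⟨m, hy1, fun n hn => hy2 n hn⟩
  rw [heq] at hA
  obtain ⟨y, ⟨n, hn1, hn2⟩, ⟨m, hm1, hm2⟩⟩ := (r.bind g).nonempty_of_mem (inter_mem hA hB)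
  rcases Nat.lt_or_ge n m with h | h
  · exact hm2 n h hn1
  · exact hn2 m h hm1

/-- Rudin-Frolik minimal -/
def Mn (w : Ultrafilter ℕ) : Prop := NP w ∧ ∀ v, LeRF v w → NP v → LeRF w v

/-- Predecessors of a sum of minimal ultrafilters. -/
lemma pred {u v : Ultrafilter ℕ} {f : ℕ → Ultrafilter ℕ} {κ : ℕ → ℕ} (hf : Sep f κ)
    (hm : {n | Mn (f n)} ∈ u) (h1 : LeRF v (u.bind f)) (h2 : ¬ LeRF (u.bind f) v) (hv : NP v) :
    LeRF v u := by
  obtain ⟨g, σ, hg, heq⟩ := h1
  -- the first case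
  have case1 : {m | ((g m).map κ).bind f = g m} ∈ v → LeRF v u := by
    intro hM
    have h3 := le_of_large hM (fun m => (g m).map κ) (fun m => {n | σ ⁻¹' {m} ∈ f n})
      (by
        intro m hm
        have h4 := hg m
        have hm' : ((g m).map κ).bind f = g m := hm
        rw [← hm', mem_bnd] at h4
        exact h4)
      (by
        intro m _ m' _ hne
        rw [Set.disjoint_left]
        intro n hn hn'
        obtain ⟨x, hx1, hx2⟩ := (f n).nonempty_of_mem (inter_mem hn hn')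
        have e1 : σ x = m := hx1
        have e2 : σ x = m' := hx2
        exact hne (e1.symm.trans e2))
    rwa [← map_bnd, heq, hf.map_bind] at h3
  rcases frolik hf hg heq.symm with h | h
  · exact case1 h
  · have hs : v = u.bind (fun n => (f n).map σ) := by
      rw [← map_bnd, ← heq, hg.map_bind]
    by_cases hnp : {n | NP ((f n).map σ)} ∈ u
    · exfalso
      apply h2
      rw [← heq]
      apply weak_back hg
      intro hG
      rw [hs, mem_bnd] at hG
      obtain ⟨n, hn1, hn2, hn3, hn4⟩ := u.nonempty_of_mem (inter_mem hG (inter_mem hnp (inter_mem hm h)))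
      have hn4' : ((f n).map σ).bind g = f n := hn4
      have h5 := strict hg (u := (f n).map σ) hn1
      rw [hn4'] at h5
      exact h5 (hn3.2 _ ⟨g, σ, hg, hn4'⟩ hn2)
    · apply case1
      rw [hs, mem_bnd]
      refine mem_of_superset (inter_mem h (Ultrafilter.compl_mem_iff_notMem.2 hnp)) ?_
      rintro n ⟨hn1, hn2⟩
      have hn1' : ((f n).map σ).bind g = f n := hn1
      obtain ⟨j, hj⟩ := (not_np_iff _).1 hn2
      change {m | ((g m).map κ).bind f = g m} ∈ (f n).map σ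
      rw [hj] at hn1' ⊢
      rw [pure_bind'] at hn1'
      apply Ultrafilter.mem_pure.2
      change ((g j).map κ).bind f = g j
      rw [hn1', hf.map_eq, pure_bind']

open Classical in
/-- An intermediate element. -/
lemma mid {u : Ultrafilter ℕ} (hu : NP u) {f : ℕ → Ultrafilter ℕ} {κ : ℕ → ℕ} (hf : Sep f κ)
    (hN : {i | ∃ v, LeRF v (f i) ∧ NP v ∧ ¬ LeRF (f i) v} ∈ u) :
    ∃ z, LeRF u z ∧ ¬ LeRF z u ∧ LeRF z (u.bind f) ∧ ¬ LeRF (u.bind f) z := by
  have hex : ∀ i, ∃ (v : Ultrafilter ℕ) (h : ℕ → Ultrafilter ℕ) (σ : ℕ → ℕ),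
      (∃ v, LeRF v (f i) ∧ NP v ∧ ¬ LeRF (f i) v) →
        Sep h σ ∧ v.bind h = f i ∧ NP v ∧ ¬ LeRF (f i) v := by
    intro i
    by_cases h : ∃ v, LeRF v (f i) ∧ NP v ∧ ¬ LeRF (f i) v
    · obtain ⟨v, ⟨h, σ, h1, h2⟩, h3, h4⟩ := h
      exact ⟨v, h, σ, fun _ => ⟨h1, h2, h3, h4⟩⟩
    · exact ⟨pure 0, fun _ => pure 0, id, fun h' => absurd h' h⟩
  choose v h σ hvh using hex
  let F : ℕ → Ultrafilter ℕ := fun i => (v i).map (Nat.pair i)
  have hF : Sep F (fun k => (Nat.unpair k).1) := by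
    intro i
    change Nat.pair i ⁻¹' ((fun k => (Nat.unpair k).1) ⁻¹' {i}) ∈ v i
    have : Nat.pair i ⁻¹' ((fun k => (Nat.unpair k).1) ⁻¹' {i}) = Set.univ := by
      ext j; simp
    rw [this]
    exact univ_mem
  have hFnp : {i | NP (F i)} ∈ u := by
    refine mem_of_superset hN ?_
    intro i hi
    have h3 := (hvh i hi).2.2.1
    refine np_of_map (fun k => (Nat.unpair k).2) ?_
    have : (F i).map (fun k => (Nat.unpair k).2) = v i := by
      change ((v i).map (Nat.pair i)).map _ = v i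
      rw [Ultrafilter.map_map]
      have : (fun k => (Nat.unpair k).2) ∘ Nat.pair i = id := by
        funext j; simp
      rw [this, Ultrafilter.map_id]
    rwa [this]
  let z := u.bind F
  have hz : NP z := hF.np_bind hu
  let H : ℕ → Ultrafilter ℕ := fun q => h (Nat.unpair q).1 (Nat.unpair q).2
  have hzH : z.bind H = u.bind f := by
    change (u.bind F).bind H = _
    rw [bind_bind]
    apply bind_congr
    refine mem_of_superset hN ?_
    intro i hi
    change (F i).bind H = f i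
    rw [← (hvh i hi).2.1]
    symm
    apply uext
    intro s hs
    rw [mem_bnd] at hs ⊢
    have h5 : Nat.pair i ⁻¹' {n | s ∈ H n} ∈ v i := hs
    refine mem_of_superset h5 ?_
    intro j hj
    have : s ∈ H (Nat.pair i j) := hj
    simpa [H] using this
  let C : ℕ → Set ℕ := fun q => κ ⁻¹' {(Nat.unpair q).1} ∩ σ (Nat.unpair q).1 ⁻¹' {(Nat.unpair q).2}
  have hQ : {q | C q ∈ H q} ∈ z := by
    rw [mem_bnd]
    refine mem_of_superset hN ?_
    intro i hi
    change Nat.pair i ⁻¹' {q | C q ∈ H q} ∈ v i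
    have h6 : {j | κ ⁻¹' {i} ∈ h i j} ∈ v i := by
      have h7 := hf i
      rw [← (hvh i hi).2.1, mem_bnd] at h7
      exact h7
    refine mem_of_superset h6 ?_
    intro j hj
    have hj' : κ ⁻¹' {i} ∈ h i j := hj
    have h8 := (hvh i hi).1 j
    change C (Nat.pair i j) ∈ H (Nat.pair i j)
    simp only [C, H, Nat.unpair_pair]
    exact inter_mem hj' h8
  have hd : ∀ n ∈ {q | C q ∈ H q}, ∀ m ∈ {q | C q ∈ H q}, n ≠ m → Disjoint (C n) (C m) := by
    intro n _ m _ hne
    rw [Set.disjoint_left]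
    rintro x ⟨hx1, hx2⟩ ⟨hx3, hx4⟩
    have e1 : κ x = (Nat.unpair n).1 := hx1
    have e2 : σ (Nat.unpair n).1 x = (Nat.unpair n).2 := hx2
    have e3 : κ x = (Nat.unpair m).1 := hx3
    have e4 : σ (Nat.unpair m).1 x = (Nat.unpair m).2 := hx4
    apply hne
    have e5 : (Nat.unpair n).1 = (Nat.unpair m).1 := e1.symm.trans e3
    have e6 : (Nat.unpair n).2 = (Nat.unpair m).2 := by rw [← e2, ← e4, e5]
    rw [← Nat.pair_unpair n, ← Nat.pair_unpair m, e5, e6]
  obtain ⟨H', κ', hH1, hH2, -⟩ := ext_sep hz hQ H C (fun n hn => hn) hd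
  have hzH' : z.bind H' = u.bind f := by rw [bind_congr hH2, hzH]
  refine ⟨z, ⟨F, _, hF, rfl⟩, strict hF hFnp, ⟨H', κ', hH1, hzH'⟩, ?_⟩
  rw [← hzH']
  apply strict hH1
  have hHnp : {q | NP (H q)} ∈ z := by
    rw [mem_bnd]
    refine mem_of_superset hN ?_
    intro i hi
    change Nat.pair i ⁻¹' {q | NP (H q)} ∈ v i
    have h9 : {j | NP (h i j)} ∈ v i := by
      by_contra hcon
      have h10 := weak_back (hvh i hi).1 hcon
      rw [(hvh i hi).2.1] at h10
      exact (hvh i hi).2.2.2 h10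
    refine mem_of_superset h9 ?_
    intro j hj
    have hj' : NP (h i j) := hj
    change NP (H (Nat.pair i j))
    simpa [H] using hj'
  refine mem_of_superset (inter_mem hHnp hH2) ?_
  rintro q ⟨hq1, hq2⟩
  have e : H' q = H q := hq2
  change NP (H' q)
  rw [e]
  exact hq1

end Pool.Agent.Q304.KU
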