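import Mathlib
import Pool.Agent.Q304.KU.Main

set_option autoImplicit false

/-!
# No least upper bound of two incomparable weak P-points
-/

open Set Filter

namespace Pool.Agent.Q304.KU

/-- The tensor product, on pairs coded by naturals. -/
noncomputable def tens (U V : Ultrafilter ℕ) : Ultrafilter ℕ :=
  U.bind (fun n => V.map (fun m => Nat.pair n m))

lemma mem_tens {U V : Ultrafilter ℕ} {s : Set ℕ} :
    s ∈ tens U V ↔ {n | {m | Nat.pair n m ∈ s} ∈ V} ∈ U := by
  exact Filter.mem_bind'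

lemma tens_map_fst (U V : Ultrafilter ℕ) : (tens U V).map (fun p => (Nat.unpair p).1) = U := by
  apply Ultrafilter.coe_injective
  ext s
  change _ ∈ tens U V ↔ _
  rw [mem_tens]
  have : {n | {m | Nat.pair n m ∈ (fun p => (Nat.unpair p).1) ⁻¹' s} ∈ V} = s := by
    ext n
    by_cases hn : n ∈ s
    · simp only [mem_preimage, Nat.unpair_pair, mem_ofPred_eq, hn, iff_true]
      exact univ_mem
    · simp only [mem_preimage, Nat.unpair_pair, mem_ofPred_eq, hn, iff_false]
      exact V.empty_notMem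
  rw [this]
  rfl

lemma tens_map_snd (U V : Ultrafilter ℕ) : (tens U V).map (fun p => (Nat.unpair p).2) = V := by
  apply Ultrafilter.coe_injective
  ext s
  change _ ∈ tens U V ↔ _
  rw [mem_tens]
  have : ∀ n : ℕ, {m | Nat.pair n m ∈ (fun p => (Nat.unpair p).2) ⁻¹' s} = s := by
    intro n; ext m; simp
  simp only [this]
  by_cases hs : s ∈ V
  · have h1 : {n : ℕ | s ∈ V} = Set.univ := by ext; simp [hs]
    rw [h1]
    exact ⟨fun _ => hs, fun _ => univ_mem⟩
  · have h1 : {n : ℕ | s ∈ V} = ∅ := by ext; simp [hs]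
    rw [h1]
    exact ⟨fun h => absurd h U.empty_notMem, fun h => absurd h hs⟩

/-- limits of sequences of ultrafilters converging to a weak P-point -/
lemma WeakP.principal {U V0 : Ultrafilter ℕ} (hU : WeakP U) (hV0 : (V0 : Filter ℕ) ≤ cofinite)
    (hne : V0 ≠ U) (W : Ultrafilter ℕ) (t : ℕ → Ultrafilter ℕ) (ht : ∀ s, s ∈ U ↔ {n | s ∈ t n} ∈ W)
    (htU : ∀ n, t n ≠ U) : {n | ∃ k, t n = pure k} ∈ W := by
  classical
  by_contra hcon
  rw [← Ultrafilter.compl_mem_iff_notMem] at hcon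
  obtain ⟨B, hB, hBr⟩ := hU.2 (fun n => if (t n : Filter ℕ) ≤ cofinite then t n else V0)
    (by
      intro n
      by_cases h : (t n : Filter ℕ) ≤ cofinite
      · simpa [h] using h
      · simpa [h] using hV0)
    (by
      intro n
      by_cases h : (t n : Filter ℕ) ≤ cofinite
      · simpa [h] using htU n
      · simpa [h] using hne)
  rw [ht] at hB
  obtain ⟨n, hn1, hn2⟩ := W.nonempty_of_mem (inter_mem hB hcon)
  have h1 := hBr n
  have h2 : (t n : Filter ℕ) ≤ cofinite := by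
    rcases Ultrafilter.le_cofinite_or_eq_pure (t n) with h | ⟨a, ha⟩
    · exact h
    · exact absurd ⟨a, ha⟩ hn2
  rw [if_pos h2] at h1
  exact h1 hn1

/-- the key computation -/
lemma side {U V w : Ultrafilter ℕ} (hU : WeakP U) (hV : WeakP V) (h1 : ∀ g : ℕ → ℕ, U.map g ≠ V)
    (h2 : ∀ g : ℕ → ℕ, V.map g ≠ U) (g g' f : ℕ → ℕ) (hg : w.map g = U) (hg' : w.map g' = V)
    (hf : (tens U V).map f = w) : {x | g x < g' x} ∈ w := by
  have hne : V ≠ U := fun h => h2 id (by rw [Ultrafilter.map_id]; exact h)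
  let wn : ℕ → Ultrafilter ℕ := fun n => V.map (fun m => f (Nat.pair n m))
  have hw : ∀ s, s ∈ w ↔ {n | s ∈ wn n} ∈ U := by
    intro s
    rw [← hf, Ultrafilter.mem_map, mem_tens]
    rfl
  have ht : ∀ s, s ∈ U ↔ {n | s ∈ (wn n).map g} ∈ U := by
    intro s
    conv_lhs => rw [← hg, Ultrafilter.mem_map, hw]
    rfl
  have ht' : ∀ s, s ∈ V ↔ {n | s ∈ (wn n).map g'} ∈ U := by
    intro s
    conv_lhs => rw [← hg', Ultrafilter.mem_map, hw]
    rfl
  have hP := hU.principal hV.1 hne U (fun n => (wn n).map g) ht (by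
    intro n
    exact h2 (g ∘ fun m => f (Nat.pair n m)))
  have hQ : {n | ((wn n).map g' : Filter ℕ) ≤ cofinite} ∈ U := by
    by_contra hcon
    rw [← Ultrafilter.compl_mem_iff_notMem] at hcon
    have hex : ∀ n, ∃ k, ¬ (((wn n).map g' : Filter ℕ) ≤ cofinite) → (wn n).map g' = pure k := by
      intro n
      rcases Ultrafilter.le_cofinite_or_eq_pure ((wn n).map g') with h | ⟨a, ha⟩
      · exact ⟨0, fun h' => absurd h h'⟩
      · exact ⟨a, fun _ => ha⟩
    choose k hk using hex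
    apply h1 k
    apply Ultrafilter.coe_le_coe.1
    intro s hs
    have hs' : {n | s ∈ (wn n).map g'} ∈ U := (ht' s).1 hs
    change k ⁻¹' s ∈ U
    refine mem_of_superset (inter_mem hs' hcon) ?_
    rintro n ⟨hn1, hn2⟩
    have h3 := hk n hn2
    have hn1' : s ∈ (wn n).map g' := hn1
    rw [h3] at hn1'
    exact Ultrafilter.mem_pure.1 hn1'
  have hS : {n | {x | g x < g' x} ∈ wn n} ∈ U := by
    refine mem_of_superset (inter_mem hP hQ) ?_
    rintro n ⟨⟨k, hk⟩, hn⟩
    have a1 : {x | g x = k} ∈ (wn n : Filter ℕ) := by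
      have : {k} ∈ (wn n).map g := by
        rw [hk]
        exact Ultrafilter.mem_pure.2 rfl
      exact Ultrafilter.mem_map.1 this
    have a2 : {x | k < g' x} ∈ (wn n : Filter ℕ) := by
      have h3 : {y : ℕ | k < y} ∈ (wn n).map g' := by
        apply hn
        rw [mem_cofinite]
        refine (Set.finite_Iic k).subset ?_
        intro y hy
        simpa using hy
      exact Ultrafilter.mem_map.1 h3
    have a3 : {x | g x < g' x} ∈ (wn n : Filter ℕ) := by
      generalize wn n = z at a1 a2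
      filter_upwards [a1, a2] with x hx1 hx2
      rw [hx1]
      exact hx2
    exact a3
  exact (hw _).2 hS

/-- No least upper bound. -/
theorem no_join {U V : Ultrafilter ℕ} (hU : WeakP U) (hV : WeakP V) (h1 : ∀ g : ℕ → ℕ, U.map g ≠ V)
    (h2 : ∀ g : ℕ → ℕ, V.map g ≠ U) (w : Ultrafilter ℕ) (hUw : ∃ g : ℕ → ℕ, w.map g = U)
    (hVw : ∃ g : ℕ → ℕ, w.map g = V)
    (hmin : ∀ z : Ultrafilter ℕ, (∃ g : ℕ → ℕ, z.map g = U) → (∃ g : ℕ → ℕ, z.map g = V) →
      ∃ f : ℕ → ℕ, z.map f = w) : False := by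
  obtain ⟨g, hg⟩ := hUw
  obtain ⟨g', hg'⟩ := hVw
  obtain ⟨f, hf⟩ := hmin (tens U V) ⟨_, tens_map_fst U V⟩ ⟨_, tens_map_snd U V⟩
  obtain ⟨f', hf'⟩ := hmin (tens V U) ⟨_, tens_map_snd V U⟩ ⟨_, tens_map_fst V U⟩
  have a := side hU hV h1 h2 g g' f hg hg' hf
  have b := side hV hU h2 h1 g' g f' hg' hg hf'
  obtain ⟨x, hx1, hx2⟩ := w.nonempty_of_mem (inter_mem a b)
  have e1 : g x < g' x := hx1
  have e2 : g' x < g x := hx2
  omega

end Pool.Agent.Q304.KU
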