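import Mathlib
import Pool.Agent.Q304.KU.RF

set_option autoImplicit false

/-!
# Ranks in the Rudin-Frolik order
-/

open Set Filter

namespace Pool.Agent.Q304.KU

/-- strict order -/
def Lt (u v : Ultrafilter ℕ) : Prop := LeRF u v ∧ ¬ LeRF v u

/-- levels -/
def Lv (n : ℕ) : Set (Ultrafilter ℕ) := {u | ∃ h : Acc Lt u, h.rank = n}

lemma rank_le {u : Ultrafilter ℕ} (h : Acc Lt u) (o : Ordinal.{0})
    (ho : ∀ v (hv : Lt v u), (h.inv hv).rank < o) : h.rank ≤ o := by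
  rw [h.rank_eq]
  apply Ordinal.iSup_le
  rintro ⟨v, hv⟩
  exact Order.succ_le_of_lt (ho v hv)

lemma lt_np {v u : Ultrafilter ℕ} (h : Lt v u) : NP u := by
  by_contra hu
  obtain ⟨n, rfl⟩ := (not_np_iff u).1 hu
  exact h.2 (pure_le n v)

lemma pure_lt {u : Ultrafilter ℕ} (h : NP u) (n : ℕ) : Lt (pure n) u :=
  ⟨pure_le n u, fun h' => not_np_pure n (h'.np h)⟩

lemma lv_zero {u : Ultrafilter ℕ} : u ∈ Lv 0 ↔ ¬ NP u := by
  constructor
  · rintro ⟨h, hr⟩ hu
    have h1 := h.rank_lt_of_rel (pure_lt hu 0)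
    rw [hr] at h1
    simp at h1
  · intro hu
    have hacc : Acc Lt u := Acc.intro u fun v hv => absurd (lt_np hv) hu
    refine ⟨hacc, ?_⟩
    have h1 := rank_le hacc 0 (fun v hv => absurd (lt_np hv) hu)
    simpa using h1

lemma lv_unique {u : Ultrafilter ℕ} {n m : ℕ} (h : u ∈ Lv n) (h' : u ∈ Lv m) : n = m := by
  obtain ⟨a, ha⟩ := h
  obtain ⟨b, hb⟩ := h'
  have : (n : Ordinal.{0}) = m := by rw [← ha, ← hb]
  exact_mod_cast this

lemma lv_np {u : Ultrafilter ℕ} {n : ℕ} (hn : 1 ≤ n) (h : u ∈ Lv n) : NP u := by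
  by_contra hu
  have := lv_unique h (lv_zero.2 hu)
  omega

lemma lt_of_lt_of_le {v u w : Ultrafilter ℕ} (h : Lt v u) (h' : LeRF u w) : Lt v w :=
  ⟨h.1.trans h', fun h2 => h.2 (h'.trans h2)⟩

lemma acc_mono {v u : Ultrafilter ℕ} (h : LeRF v u) (hu : Acc Lt u) : ∃ hv : Acc Lt v,
    hv.rank ≤ hu.rank := by
  have hv : Acc Lt v := Acc.intro v fun w hw => hu.inv (lt_of_lt_of_le hw h)
  refine ⟨hv, rank_le hv _ fun w hw => ?_⟩
  exact hu.rank_lt_of_rel (lt_of_lt_of_le hw h)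

lemma lv_congr {v u : Ultrafilter ℕ} {n : ℕ} (h : LeRF v u) (h' : LeRF u v) (hu : u ∈ Lv n) :
    v ∈ Lv n := by
  obtain ⟨a, ha⟩ := hu
  obtain ⟨b, hb⟩ := acc_mono h a
  obtain ⟨c, hc⟩ := acc_mono h' b
  exact ⟨b, by rw [← ha]; exact le_antisymm hb hc⟩

lemma lv_one {u : Ultrafilter ℕ} : u ∈ Lv 1 ↔ Mn u := by
  constructor
  · rintro ⟨h, hr⟩
    have hnp : NP u := lv_np le_rfl ⟨h, hr⟩
    refine ⟨hnp, fun v hv hvn => ?_⟩
    by_contra hcon
    have hlt : Lt v u := ⟨hv, hcon⟩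
    have h1 := h.rank_lt_of_rel hlt
    have h2 := (h.inv hlt).rank_lt_of_rel (pure_lt hvn 0)
    rw [hr] at h1
    have h3 : (h.inv hlt).rank < (1 : Ordinal.{0}) := by exact_mod_cast h1
    rw [Ordinal.lt_one_iff_zero] at h3
    rw [h3] at h2
    exact absurd h2 (by simp)
  · intro hm
    have hpred : ∀ v, Lt v u → ¬ NP v := fun v hv hvn => hv.2 (hm.2 v hv.1 hvn)
    have hacc : Acc Lt u := Acc.intro u fun v hv => (lv_zero.2 (hpred v hv)).choose
    refine ⟨hacc, le_antisymm ?_ ?_⟩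
    · refine rank_le hacc _ fun v hv => ?_
      obtain ⟨a, ha⟩ := lv_zero.2 (hpred v hv)
      have : (hacc.inv hv).rank = ((0 : ℕ) : Ordinal.{0}) := ha
      rw [this]
      simp
    · have h1 := hacc.rank_lt_of_rel (pure_lt hm.1 0)
      have h2 : (0 : Ordinal.{0}) < hacc.rank := lt_of_le_of_lt (by simp) h1
      have h3 := Order.one_le_iff_pos.2 h2
      exact_mod_cast h3

lemma lv_step {u : Ultrafilter ℕ} {f : ℕ → Ultrafilter ℕ} {κ : ℕ → ℕ} (hf : Sep f κ)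
    (hm : {n | Mn (f n)} ∈ u) {n : ℕ} (_hn : 1 ≤ n) (hu : u ∈ Lv n) : u.bind f ∈ Lv (n + 1) := by
  obtain ⟨a, ha⟩ := hu
  have hpred : ∀ v, Lt v (u.bind f) → ∃ hv : Acc Lt v, hv.rank ≤ n := by
    intro v hv
    by_cases hvn : NP v
    · obtain ⟨b, hb⟩ := acc_mono (pred hf hm hv.1 hv.2 hvn) a
      exact ⟨b, by rw [← ha]; exact hb⟩
    · obtain ⟨b, hb⟩ := lv_zero.2 hvn
      exact ⟨b, by rw [hb]; simp⟩
  have hacc : Acc Lt (u.bind f) := Acc.intro _ fun v hv => (hpred v hv).choose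
  have hlt : Lt u (u.bind f) := ⟨⟨f, κ, hf, rfl⟩, strict hf (mem_of_superset hm fun n hn => hn.1)⟩
  refine ⟨hacc, le_antisymm ?_ ?_⟩
  · refine rank_le hacc _ fun v hv => ?_
    obtain ⟨b, hb⟩ := hpred v hv
    refine lt_of_le_of_lt hb ?_
    exact_mod_cast Nat.lt_succ_self n
  · have h1 := hacc.rank_lt_of_rel hlt
    have h2 : (hacc.inv hlt).rank = n := ha
    rw [h2] at h1
    have h3 := Order.succ_le_of_lt h1
    simpa using h3

lemma lv_mid {u : Ultrafilter ℕ} {f : ℕ → Ultrafilter ℕ} {κ : ℕ → ℕ} (hf : Sep f κ)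
    (hN : {i | ∃ v, LeRF v (f i) ∧ NP v ∧ ¬ LeRF (f i) v} ∈ u) {n m : ℕ} (hn : 1 ≤ n)
    (hu : u ∈ Lv n) (hx : u.bind f ∈ Lv m) : n + 2 ≤ m := by
  obtain ⟨z, h1, h2, h3, h4⟩ := mid (lv_np hn hu) hf hN
  obtain ⟨a, ha⟩ := hu
  obtain ⟨b, hb⟩ := hx
  have h5 := b.rank_lt_of_rel ⟨h3, h4⟩
  have h6 := (b.inv ⟨h3, h4⟩).rank_lt_of_rel ⟨h1, h2⟩
  have h7 : ((b.inv ⟨h3, h4⟩).inv ⟨h1, h2⟩).rank = n := ha
  rw [h7] at h6
  rw [hb] at h5
  obtain ⟨k, hk⟩ := Ordinal.lt_omega0.1 (h5.trans (Ordinal.natCast_lt_omega0 m))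
  rw [hk] at h5 h6
  have e1 : n < k := by exact_mod_cast h6
  have e2 : k < m := by exact_mod_cast h5
  omega

/-- decomposition of an element of level `n + 1`. -/
lemma lv_decomp {x : Ultrafilter ℕ} {n : ℕ} (hn : 1 ≤ n) (hx : x ∈ Lv (n + 1)) :
    ∃ u f κ, Sep f κ ∧ u ∈ Lv n ∧ (∀ i, Mn (f i)) ∧ u.bind f = x := by
  obtain ⟨h, hr⟩ := hx
  have hex : ∃ u, Lt u x ∧ u ∈ Lv n := by
    by_contra hcon
    push Not at hcon
    have h1 : h.rank ≤ n := by
      refine rank_le h _ fun v hv => ?_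
      have h2 := h.rank_lt_of_rel hv
      rw [hr] at h2
      obtain ⟨k, hk⟩ := Ordinal.lt_omega0.1 (h2.trans (Ordinal.natCast_lt_omega0 _))
      have h3 : k < n + 1 := by
        rw [hk] at h2
        exact_mod_cast h2
      have h4 : k ≠ n := by
        rintro rfl
        exact hcon v hv ⟨h.inv hv, hk⟩
      rw [hk]
      have : k < n := by omega
      exact_mod_cast this
    rw [hr] at h1
    have : n + 1 ≤ n := by exact_mod_cast h1
    omega
  obtain ⟨u, hlt, hu⟩ := hex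
  obtain ⟨f, κ, hf, hfx⟩ := hlt.1
  have hnp : {i | NP (f i)} ∈ u := by
    by_contra hcon
    have := weak_back hf hcon
    rw [hfx] at this
    exact hlt.2 this
  have hm : {i | Mn (f i)} ∈ u := by
    by_contra hcon
    have h5 : {i | ∃ v, LeRF v (f i) ∧ NP v ∧ ¬ LeRF (f i) v} ∈ u := by
      refine mem_of_superset (inter_mem hnp (Ultrafilter.compl_mem_iff_notMem.2 hcon)) ?_
      rintro i ⟨hi1, hi2⟩
      by_contra h6
      apply hi2
      refine ⟨hi1, fun v hv hvn => ?_⟩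
      by_contra h7
      exact h6 ⟨v, hv, hvn, h7⟩
    have := lv_mid hf h5 hn hu (m := n + 1) (by rw [hfx]; exact ⟨h, hr⟩)
    omega
  obtain ⟨f', κ', h1, h2, h3⟩ := ext_sep (lv_np hn hu) hm f (fun n => κ ⁻¹' {n}) (fun n _ => hf n)
    (by
      intro n _ m _ hne
      rw [Set.disjoint_left]
      intro y hy hy'
      have e1 : κ y = n := hy
      have e2 : κ y = m := hy'
      exact hne (e1.symm.trans e2))
  refine ⟨u, f', κ', h1, hu, fun i => ?_, by rw [bind_congr h2, hfx]⟩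
  obtain ⟨m, hm1, hm2⟩ := h3 i
  rw [hm2]
  exact hm1

/-- copies of an ultrafilter are equivalent to it -/
lemma iso (u : Ultrafilter ℕ) (e : ℕ → ℕ) (he : Function.Injective e) :
    LeRF u (u.map e) ∧ LeRF (u.map e) u := by
  have hf : Sep (fun n => pure (e n)) (Function.invFun e) := by
    intro n
    apply Ultrafilter.mem_pure.2
    exact Function.leftInverse_invFun he n
  have h1 : u.bind (fun n => pure (e n)) = u.map e := by
    symm
    apply uext
    intro s hs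
    rw [mem_bnd] at hs
    exact hs
  constructor
  · exact ⟨_, _, hf, h1⟩
  · rw [← h1]
    apply weak_back hf
    intro h
    obtain ⟨n, hn⟩ := u.nonempty_of_mem h
    exact not_np_pure _ hn

lemma sep_copies (u : Ultrafilter ℕ) : Sep (fun i => u.map (Nat.pair i)) (fun k => (Nat.unpair k).1) := by
  intro i
  change Nat.pair i ⁻¹' ((fun k => (Nat.unpair k).1) ⁻¹' {i}) ∈ u
  have : Nat.pair i ⁻¹' ((fun k => (Nat.unpair k).1) ⁻¹' {i}) = Set.univ := by
    ext j; simp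
  rw [this]
  exact univ_mem

lemma pair_inj (i : ℕ) : Function.Injective (Nat.pair i) := by
  intro a b h
  have := congrArg Nat.unpair h
  simpa using this

lemma Sep.injective {f : ℕ → Ultrafilter ℕ} {κ : ℕ → ℕ} (h : Sep f κ) : Function.Injective f := by
  intro n m hnm
  have h1 := h n
  rw [hnm, h.pre] at h1
  exact h1.symm

open Classical in
lemma WeakP.mn {u : Ultrafilter ℕ} (hu : WeakP u) {V0 : Ultrafilter ℕ} (hV0 : NP V0)
    (hne : V0 ≠ u) : Mn u := by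
  refine ⟨hu.1, ?_⟩
  rintro v ⟨g, σ, hg, rfl⟩ hv
  apply weak_back hg
  intro hnp
  obtain ⟨B, hB, hBr⟩ := hu.2 (fun m => if NP (g m) ∧ g m ≠ v.bind g then g m else V0)
    (by
      intro m
      by_cases h : NP (g m) ∧ g m ≠ v.bind g
      · rw [if_pos h]; exact h.1
      · rw [if_neg h]; exact hV0)
    (by
      intro m
      by_cases h : NP (g m) ∧ g m ≠ v.bind g
      · rw [if_pos h]; exact h.2
      · rw [if_neg h]; exact hne)
  rw [mem_bnd] at hB
  have h3 : {m | g m = v.bind g}ᶜ ∈ v := by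
    apply hv
    apply Set.Finite.compl_mem_cofinite
    apply Set.Subsingleton.finite
    intro a ha b hb
    exact hg.injective ((show g a = _ from ha).trans (show g b = _ from hb).symm)
  obtain ⟨m, hm1, hm2, hm3⟩ := v.nonempty_of_mem (inter_mem hB (inter_mem hnp h3))
  have h4 := hBr m
  rw [if_pos ⟨hm2, hm3⟩] at h4
  exact h4 hm1

lemma exists_mn : ∃ u, Mn u := by
  obtain ⟨U, V, hU, hV, -, h⟩ := exists_pair
  exact ⟨U, hU.mn (V0 := V) hV.1 (fun h' => h id (by rw [Ultrafilter.map_id]; exact h'))⟩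

lemma lv_nonempty (n : ℕ) : (Lv (n + 1)).Nonempty := by
  obtain ⟨w, hw⟩ := exists_mn
  induction n with
  | zero => exact ⟨w, lv_one.2 hw⟩
  | succ n ih =>
    obtain ⟨u, hu⟩ := ih
    refine ⟨_, lv_step (sep_copies w) ?_ (by omega) hu⟩
    have : {i | Mn (w.map (Nat.pair i))} = Set.univ := by
      ext i
      simp only [mem_ofPred_eq, mem_univ, iff_true]
      have := iso w (Nat.pair i) (pair_inj i)
      exact lv_one.1 (lv_congr this.2 this.1 (lv_one.2 hw))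
    rw [this]
    exact univ_mem

end Pool.Agent.Q304.KU
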