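import Mathlib
import Pool.Agent.Q304.KU.Main

set_option autoImplicit false

/-!
# Limits of a discrete sequence along a weak P-point
-/

open Set Filter Topology Cardinal

namespace Pool.Agent.Q304.KU

/-- first coordinate -/
def pr (k : ℕ) : ℕ := (Nat.unpair k).1

lemma exists_fib : ∃ x : ℕ → Ultrafilter ℕ, ∀ n, (x n : Filter ℕ) ≤ cofinite ∧
    {k | pr k = n} ∈ x n := by
  have key : ∀ n, ∃ U : Ultrafilter ℕ, (U : Filter ℕ) ≤ cofinite ∧ {k | pr k = n} ∈ U := by
    intro n
    have hinf : {k | pr k = n}.Infinite := by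
      have h1 : (Set.range (fun m => Nat.pair n m)).Infinite :=
        Set.infinite_range_of_injective (fun a b h => by
          have := congrArg Nat.unpair h
          simpa using this)
      refine h1.mono ?_
      rintro _ ⟨m, rfl⟩
      simp [pr]
    have : (cofinite ⊓ 𝓟 {k | pr k = n}).NeBot := Filter.cofinite_inf_principal_neBot_iff.2 hinf
    obtain ⟨U, hU⟩ := Ultrafilter.exists_le (cofinite ⊓ 𝓟 {k | pr k = n})
    exact ⟨U, hU.trans inf_le_left, hU (mem_inf_of_right (mem_principal_self _))⟩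
  choose x hx using key
  exact ⟨x, hx⟩

/-- the discrete sequence -/
noncomputable def xs : ℕ → Ultrafilter ℕ := exists_fib.choose

lemma xs_np (n : ℕ) : (xs n : Filter ℕ) ≤ cofinite := (exists_fib.choose_spec n).1

lemma xs_mem (n : ℕ) : {k | pr k = n} ∈ xs n := (exists_fib.choose_spec n).2

/-- the limit of the sequence along `p`. -/
noncomputable def xp (p : Ultrafilter ℕ) : Ultrafilter ℕ := p.bind xs

lemma mem_xp {p : Ultrafilter ℕ} {s : Set ℕ} : s ∈ xp p ↔ {n | s ∈ xs n} ∈ p := Filter.mem_bind'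

lemma pre_mem_xs (n : ℕ) (s : Set ℕ) : pr ⁻¹' s ∈ xs n ↔ n ∈ s := by
  constructor
  · intro h
    obtain ⟨k, hk1, hk2⟩ := (xs n).nonempty_of_mem (inter_mem h (xs_mem n))
    have h1 : pr k ∈ s := hk1
    have h2 : pr k = n := hk2
    rwa [h2] at h1
  · intro h
    refine mem_of_superset (xs_mem n) ?_
    intro k hk
    have h2 : pr k = n := hk
    change pr k ∈ s
    rwa [h2]

lemma pre_mem_xp (p : Ultrafilter ℕ) (s : Set ℕ) : pr ⁻¹' s ∈ xp p ↔ s ∈ p := by
  rw [mem_xp]
  have : {n | pr ⁻¹' s ∈ xs n} = s := by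
    ext n
    exact pre_mem_xs n s
  rw [this]

lemma xp_np (p : Ultrafilter ℕ) : (xp p : Filter ℕ) ≤ cofinite := by
  intro s hs
  change s ∈ xp p
  rw [mem_xp]
  have : {n | s ∈ xs n} = Set.univ := by
    ext n
    simp only [mem_univ, iff_true]
    exact xs_np n hs
  rw [this]
  exact univ_mem

lemma xs_ne_xp {p : Ultrafilter ℕ} (hp : (p : Filter ℕ) ≤ cofinite) (n : ℕ) : xs n ≠ xp p := by
  intro h
  have h1 : pr ⁻¹' {n} ∈ xs n := (pre_mem_xs n {n}).2 rfl
  rw [h, pre_mem_xp] at h1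
  have h2 : ({n} : Set ℕ)ᶜ ∈ p := hp (Set.finite_singleton n).compl_mem_cofinite
  exact Ultrafilter.compl_mem_iff_notMem.1 h2 h1

/-- The key lemma. -/
lemma key {p q : Ultrafilter ℕ} (hp : WeakP p) (z : ℕ → Ultrafilter ℕ)
    (hz : ∀ m, (z m : Filter ℕ) ≤ cofinite) (hne : ∀ m, z m ≠ xp p)
    (hlim : ∀ s, s ∈ xp p → {m | s ∈ z m} ∈ q) : ∃ g : ℕ → ℕ, q.map g = p := by
  classical
  have hlim' : ∀ s, s ∈ xp p ↔ {m | s ∈ z m} ∈ q := by
    intro s
    refine ⟨hlim s, fun h => ?_⟩
    by_contra hcon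
    rw [← Ultrafilter.compl_mem_iff_notMem] at hcon
    obtain ⟨m, hm1, hm2⟩ := q.nonempty_of_mem (inter_mem h (hlim _ hcon))
    exact Ultrafilter.compl_mem_iff_notMem.1 hm2 hm1
  let r : ℕ → Ultrafilter ℕ := fun m => (z m).map pr
  have hr : ∀ s, s ∈ p ↔ {m | s ∈ r m} ∈ q := by
    intro s
    rw [← pre_mem_xp, hlim']
    rfl
  -- the image is not `p` for `q`-most `m`
  have hnp : {m | r m = p} ∉ q := by
    intro hcon
    have hB : ∀ m, ∃ B : Set ℕ, (∀ n, B ∈ xs n) ∧ (r m = p → B ∉ z m) := by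
      intro m
      by_cases h : r m = p
      · have : ∃ E ∈ xp p, E ∉ z m := by
          by_contra hc
          push Not at hc
          exact hne m (Ultrafilter.coe_le_coe.1 (fun B hB => hc B hB))
        obtain ⟨E, hE, hEz⟩ := this
        refine ⟨E ∪ pr ⁻¹' {n | E ∈ xs n}ᶜ, ?_, ?_⟩
        · intro n
          by_cases hn : E ∈ xs n
          · exact mem_of_superset hn subset_union_left
          · exact mem_of_superset ((pre_mem_xs n {n | E ∈ xs n}ᶜ).2 hn) subset_union_right
        · intro _ hc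
          rcases Ultrafilter.union_mem_iff.1 hc with hc | hc
          · exact hEz hc
          · have h1 : {n | E ∈ xs n}ᶜ ∈ r m := hc
            rw [h] at h1
            exact Ultrafilter.compl_mem_iff_notMem.1 h1 (mem_xp.1 hE)
      · exact ⟨Set.univ, fun _ => univ_mem, fun h' => absurd h' h⟩
    choose B hB1 hB2 using hB
    let C : Set ℕ := {x | ∀ m ≤ pr x, x ∈ B m}
    have hC : ∀ n, C ∈ xs n := by
      intro n
      have h1 : (⋂ m ∈ Finset.range (n+1), B m) ∈ xs n :=
        (Filter.biInter_finset_mem _).2 fun m _ => hB1 m n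
      refine mem_of_superset (inter_mem h1 (xs_mem n)) ?_
      rintro x ⟨hx1, hx2⟩ m hm
      have e : pr x = n := hx2
      rw [e] at hm
      simp only [mem_iInter, Finset.mem_range] at hx1
      exact hx1 m (by omega)
    have hCp : C ∈ xp p := by
      rw [mem_xp]
      have : {n | C ∈ xs n} = Set.univ := by ext n; simp [hC n]
      rw [this]
      exact univ_mem
    obtain ⟨m, hm1, hm2⟩ := q.nonempty_of_mem (inter_mem (hlim _ hCp) hcon)
    have hm1' : C ∈ z m := hm1
    have hm2' : r m = p := hm2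
    apply hB2 m hm2'
    have h3 : {y : ℕ | m ≤ y} ∈ r m := by
      rw [hm2']
      apply hp.1
      rw [mem_cofinite]
      refine (Set.finite_Iio m).subset ?_
      intro y hy
      simpa using hy
    have h4 : pr ⁻¹' {y : ℕ | m ≤ y} ∈ z m := h3
    refine mem_of_superset (inter_mem hm1' h4) ?_
    rintro x ⟨hx1, hx2⟩
    exact hx1 m hx2
  -- hence principal
  have hpr : {m | ∃ k, r m = pure k} ∈ q := by
    by_contra hcon
    rw [← Ultrafilter.compl_mem_iff_notMem] at hcon hnp
    obtain ⟨m0, hm0, hm0'⟩ := q.nonempty_of_mem (inter_mem hcon hnp)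
    have hgood : ∀ m, (¬ ∃ k, r m = pure k) → (r m : Filter ℕ) ≤ cofinite := by
      intro m hm
      rcases Ultrafilter.le_cofinite_or_eq_pure (r m) with h | ⟨a, ha⟩
      · exact h
      · exact absurd ⟨a, ha⟩ hm
    obtain ⟨B, hB, hBr⟩ := hp.2 (fun m => if (¬ ∃ k, r m = pure k) ∧ r m ≠ p then r m else r m0)
      (by
        intro m
        by_cases h : (¬ ∃ k, r m = pure k) ∧ r m ≠ p
        · rw [if_pos h]
          exact hgood m h.1
        · rw [if_neg h]
          exact hgood m0 hm0)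
      (by
        intro m
        by_cases h : (¬ ∃ k, r m = pure k) ∧ r m ≠ p
        · rw [if_pos h]
          exact h.2
        · rw [if_neg h]
          exact hm0')
    rw [hr] at hB
    obtain ⟨m, hm1, hm2, hm3⟩ := q.nonempty_of_mem (inter_mem hB (inter_mem hcon hnp))
    have h1 := hBr m
    rw [if_pos ⟨hm2, hm3⟩] at h1
    exact h1 hm1
  have hex : ∀ m, ∃ k, (∃ k, r m = pure k) → r m = pure k := by
    intro m
    by_cases h : ∃ k, r m = pure k
    · exact ⟨h.choose, fun _ => h.choose_spec⟩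
    · exact ⟨0, fun h' => absurd h' h⟩
  choose g hg using hex
  refine ⟨g, ?_⟩
  symm
  apply Ultrafilter.coe_le_coe.1
  intro s hs
  by_contra hcon
  have hcon' : sᶜ ∈ p := Ultrafilter.compl_mem_iff_notMem.2 hcon
  rw [hr] at hcon'
  have hs' : g ⁻¹' s ∈ q := hs
  obtain ⟨m, hm1, hm2, hm3⟩ := q.nonempty_of_mem (inter_mem hcon' (inter_mem hs' hpr))
  have h1 := hg m hm3
  have h2 : sᶜ ∈ r m := hm1
  rw [h1] at h2
  exact Ultrafilter.mem_pure.1 h2 hm2

end Pool.Agent.Q304.KU
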